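import Mathlib

/-!
# Project PP: statements

The kernel of the Rédei type matrix of a random squarefree element of `ℤ[i]`.
-/

set_option autoImplicit false

open Finset

namespace Pool.Agent.Y690.PP

/-! ## General notation: a set `P` of `primes' with norms `N p` and symbols `s p q` -/

section gen

variable {P : Type}

/-- the norm of a finite set of primes -/
def NN (N : P → ℕ) (A : Finset P) : ℕ := ∏ p ∈ A, N p

open Classical in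
/-- the finite sets of primes of norm at most `x` -/
noncomputable def FF (N : P → ℕ) (x : ℝ) : Finset (Finset P) :=
  if h : {A : Finset P | (NN N A : ℝ) ≤ x}.Finite then h.toFinset else ∅

open Classical in
/-- the primes of norm at most `x` -/
noncomputable def PB (N : P → ℕ) (x : ℝ) : Finset P :=
  if h : {p : P | (N p : ℝ) ≤ x}.Finite then h.toFinset else ∅

/-- the symbol of two finite sets -/
def sy (s : P → P → ℝ) (A B : Finset P) : ℝ := ∏ p ∈ A, ∏ q ∈ B, s p q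

/-- Basic facts on the system. -/
structure Basic (N : P → ℕ) (s : P → P → ℝ) (t : P → ℝ) : Prop where
  two_le : ∀ p, 2 ≤ N p
  fin : ∀ x : ℝ, {p : P | (N p : ℝ) ≤ x}.Finite
  s_self : ∀ p, s p p = 0
  s_val : ∀ p q, p ≠ q → s p q = 1 ∨ s p q = -1
  s_symm : ∀ p q, s p q = s q p
  t_val : ∀ p, t p = 1 ∨ t p = -1

/-- Chebyshev's bound -/
def A1 (N : P → ℕ) : Prop :=
  ∃ C : ℝ, ∀ x : ℝ, 1 ≤ x → ∑ p ∈ PB N x, Real.log (N p) ≤ C * x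

/-- the sum of `N p ^ (-σ)` -/
def A2 (N : P → ℕ) : Prop :=
  ∃ C : ℝ, ∀ (F : Finset P) (σ : ℝ), 1 < σ → σ ≤ 2 →
    ∑ p ∈ F, (N p : ℝ) ^ (-σ) ≤ Real.log (1 / (σ - 1)) + C

/-- the upper bound of the logarithm of the `L`-functions -/
def A3 (N : P → ℕ) (s : P → P → ℝ) (t : P → ℝ) : Prop :=
  ∃ C : ℝ, ∀ (A : Finset P) (e : ℕ), (A.Nonempty ∨ e = 1) → e ≤ 1 → ∀ σ : ℝ, 1 < σ → σ ≤ 2 →
    ∑' p : P, t p ^ e * (∏ q ∈ A, s q p) * (N p : ℝ) ^ (-σ) ≤ Real.log (1 + Real.log (NN N A)) + C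

open Classical in
/-- the bilinear estimate -/
def A4 (N : P → ℕ) (s : P → P → ℝ) : Prop :=
  ∃ (C δ : ℝ) (D : ℕ), 0 < δ ∧ ∀ a b : Finset P → ℝ, (∀ A, |a A| ≤ 1) → (∀ B, |b B| ≤ 1) →
    ∀ Z Y : ℝ, 1 ≤ Z → 1 ≤ Y →
      |∑ A ∈ FF N Y, ∑ B ∈ FF N Y,
        if Z < NN N A ∧ Z < NN N B ∧ (NN N A : ℝ) * NN N B ≤ Y then a A * b B * sy s A B else 0| ≤
        C * Y * (1 + Real.log Y) ^ D * Z ^ (-δ)

/-- the number of sets of norm at most `x` -/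
def A5 (N : P → ℕ) : Prop := ∃ c : ℝ, 0 < c ∧ ∀ x : ℝ, 1 ≤ x → c * x ≤ (#(FF N x) : ℝ)

/-- HR: upper bound for the sum of a multiplicative function with values in `[0, 1]`. -/
def HR (N : P → ℕ) : Prop :=
  ∃ C : ℝ, 0 < C ∧ ∀ g : P → ℝ, (∀ p, 0 ≤ g p) → (∀ p, g p ≤ 1) → ∀ x : ℝ, 2 ≤ x →
    ∑ A ∈ FF N x, ∏ p ∈ A, g p ≤
      C * (x / Real.log x) * Real.exp (∑ p ∈ PB N x, g p * (N p : ℝ) ^ (-(1 + 1 / Real.log x)))

/-! ### Labelled sets -/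

variable {I : Type} [Fintype I] [DecidableEq I]

open Classical in
/-- the families of pairwise disjoint sets of primes, of total norm at most `x` -/
noncomputable def TT (I : Type) [Fintype I] [DecidableEq I] (N : P → ℕ) (x : ℝ) :
    Finset (I → Finset P) :=
  (Fintype.piFinset fun _ : I => FF N x).filter fun A =>
    (∀ u v, u ≠ v → Disjoint (A u) (A v)) ∧ ((∏ u, NN N (A u) : ℕ) : ℝ) ≤ x

/-- the weight of a family -/
noncomputable def wt (s : P → P → ℝ) (t : P → ℝ) (w : ℝ) (e : I → I → ℕ) (τ : I → ℕ)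
    (A : I → Finset P) : ℝ :=
  w ^ (∑ u, #(A u)) * (∏ u, (∏ p ∈ A u, t p) ^ τ u) * ∏ u, ∏ v, sy s (A u) (A v) ^ e u v

open Classical in
/-- (a) two linked large sets -/
def SABSa (N : P → ℕ) (s : P → P → ℝ) (t : P → ℝ) (I : Type) [Fintype I] [DecidableEq I] (w : ℝ)
    (e : I → I → ℕ) (τ : I → ℕ) : Prop :=
  ∀ (Λ : Finset I) (u v : I), u ∈ Λ → v ∈ Λ → u ≠ v → Odd (e u v + e v u) →
    ∃ (C δ : ℝ) (D : ℕ), 0 < δ ∧ ∀ x Z : ℝ, 2 ≤ x → 1 ≤ Z →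
      |∑ A ∈ (TT I N x).filter (fun A => ∀ u, u ∈ Λ ↔ Z < NN N (A u)), wt s t w e τ A| ≤
        C * x * (1 + Real.log x) ^ D * Z ^ (-δ)

open Classical in
/-- (b) few large sets -/
def SABSb (N : P → ℕ) (I : Type) [Fintype I] [DecidableEq I] (w : ℝ) : Prop :=
  ∀ Λ : Finset I, (#Λ : ℝ) * w < 1 → ∃ (C η : ℝ) (D : ℕ), 0 < η ∧ ∀ x Z : ℝ, 4 ≤ x → 2 ≤ Z →
    Z ^ (2 * Fintype.card I) ≤ x →
      ∑ A ∈ (TT I N x).filter (fun A => ∀ u, u ∉ Λ → (NN N (A u) : ℝ) ≤ Z), w ^ (∑ u, #(A u)) ≤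
        C * x * Real.log x ^ (-η) * Real.log Z ^ D

open Classical in
/-- (c) the main terms -/
def SABSc (N : P → ℕ) (s : P → P → ℝ) (t : P → ℝ) (I : Type) [Fintype I] [DecidableEq I] (w : ℝ)
    (e : I → I → ℕ) (τ : I → ℕ) : Prop :=
  ∀ Λ : Finset I, (#Λ : ℝ) * w = 1 → (∀ u ∈ Λ, ∀ v ∈ Λ, Even (e u v + e v u)) →
    (∀ v, v ∉ Λ → (∃ u ∈ Λ, Even (e u v + e v u)) ∧ ∃ u ∈ Λ, Odd (e u v + e v u)) →
    ((∃ u ∈ Λ, Odd (τ u)) → ∃ u ∈ Λ, Even (τ u)) →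
    ∃ (C η : ℝ) (D : ℕ), 0 < η ∧ ∀ x Z : ℝ, 4 ≤ x → 2 ≤ Z → Z ^ (2 * Fintype.card I) ≤ x →
      |∑ A ∈ (TT I N x).filter (fun A => ∀ u, u ∉ Λ → (NN N (A u) : ℝ) ≤ Z), wt s t w e τ A -
        if ∀ u ∈ Λ, Even (τ u) then (#(FF N x) : ℝ) else 0| ≤
        C * x * Real.log x ^ (-η) * Real.log Z ^ D

end gen

/-! ## Gaussian integers -/

/-- the ring -/
abbrev G := GaussianInt

/-- congruent to one modulo `2 + 2 i` -/
def Prm (a : G) : Prop := (⟨2, 2⟩ : G) ∣ a - 1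

/-- the norm -/
def nm (a : G) : ℕ := a.norm.natAbs

open Classical in
/-- the quadratic residue symbol `(a / p)` -/
noncomputable def qs (p a : G) : ℤ := if p ∣ a then 0 else if ∃ b : G, p ∣ b * b - a then 1 else -1

open Classical in
/-- the sign `(-1) ^ x` of `1 + (2 + 2 i) (x + y i)` -/
noncomputable def sg (a : G) : ℤ :=
  if ∃ x y : ℤ, Even x ∧ a = 1 + (⟨2, 2⟩ : G) * ⟨x, y⟩ then 1 else -1

/-- the primes congruent to one modulo `2 + 2 i` -/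
def Pr : Type := {p : G // Prime p ∧ Prm p}

/-- the norm of a prime -/
def gN (p : Pr) : ℕ := nm p.1

/-- the symbol of two primes -/
noncomputable def gs (p q : Pr) : ℝ := (qs p.1 q.1 : ℝ)

/-- the sign of a prime -/
noncomputable def gt (p : Pr) : ℝ := (sg p.1 : ℝ)

open Classical in
/-- the elements of norm at most `x` -/
noncomputable def disc (x : ℝ) : Finset G :=
  if h : {v : G | (nm v : ℝ) ≤ x}.Finite then h.toFinset else ∅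

open Classical in
/-- the product of characters attached to two sets of primes -/
noncomputable def hh (A B : Finset Pr) (e : ℕ) (v : G) : ℝ :=
  if Prm v then (sg v : ℝ) ^ e * (∏ q ∈ A, (qs q.1 v : ℝ)) * ∏ q ∈ B, (qs q.1 v : ℝ) ^ 2 else 0

/-- quadratic reciprocity -/
def SREC : Prop := ∀ p q : G, Prime p → Prm p → Prime q → Prm q → qs p q = qs q p

/-- the symbols are multiplicative and periodic -/
def SMULT : Prop :=
  (∀ p : G, Prime p → Prm p → ∀ v w : G, qs p (v * w) = qs p v * qs p w) ∧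
  (∀ p v w : G, p ∣ v - w → qs p v = qs p w) ∧
  (∀ v w : G, Prm v → Prm w → sg (v * w) = sg v * sg w) ∧
  (∀ v w : G, Prm v → (8 : G) ∣ v - w → Prm w ∧ sg v = sg w)

/-- the functions `hh` are periodic with mean value zero -/
def SMEAN : Prop :=
  ∀ (A B : Finset Pr) (e : ℕ), (A.Nonempty ∨ e = 1) →
    (∀ v w : G, ((8 * NN gN A * NN gN B : ℕ) : G) ∣ v - w → hh A B e v = hh A B e w) ∧
    ∑ x ∈ range (8 * NN gN A * NN gN B), ∑ y ∈ range (8 * NN gN A * NN gN B),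
      hh A B e ⟨(x : ℤ), (y : ℤ)⟩ = 0

/-- sums of periodic functions over discs -/
def SDISC : Prop :=
  ∃ C : ℝ, ∀ (M : ℕ) (h : G → ℝ), 1 ≤ M → (∀ v, |h v| ≤ 1) →
    (∀ v w : G, (M : G) ∣ v - w → h v = h w) →
    (∑ x ∈ range M, ∑ y ∈ range M, h ⟨(x : ℤ), (y : ℤ)⟩ = 0) → ∀ x : ℝ, 1 ≤ x →
      |∑ v ∈ disc x, h v| ≤ C * (M : ℝ) ^ (1 / 2 : ℝ) * x ^ (3 / 4 : ℝ)

/-- lattice points in annuli -/
def SANN : Prop :=
  ∃ C : ℝ, ∀ x y : ℝ, 1 ≤ x → 1 ≤ y →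
    (#((disc (x + y)).filter fun v => x < (nm v : ℝ)) : ℝ) ≤ C * ((x + y) * y) ^ (1 / 2 : ℝ)

/-- the factorization of a primary element -/
def SFAC : Prop :=
  (∀ v : G, Prm v → ∃ (t : G) (A : Finset Pr), Prm t ∧ v = t ^ 2 * ∏ p ∈ A, p.1) ∧
  ∀ (t t' : G) (A A' : Finset Pr), Prm t → Prm t' →
    t ^ 2 * ∏ p ∈ A, p.1 = t' ^ 2 * ∏ p ∈ A', p.1 → t = t' ∧ A = A'

/-- the bilinear estimate for dyadic boxes -/
def SBOX : Prop :=
  ∃ C δ : ℝ, 0 < δ ∧ ∀ a b : Finset Pr → ℝ, (∀ A, |a A| ≤ 1) → (∀ B, |b B| ≤ 1) →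
    ∀ U V : ℝ, 1 ≤ U → U ≤ V →
      |∑ A ∈ (FF gN (2 * U)).filter (fun A => U < (NN gN A : ℝ)),
        ∑ B ∈ (FF gN (2 * V)).filter (fun B => V < (NN gN B : ℝ)), a A * b B * sy gs A B| ≤
        C * U * V * U ^ (-δ)

open Classical in
/-- the same for `V` much larger than `U` -/
def SBOX1 : Prop :=
  ∃ C : ℝ, ∀ c : Finset Pr → ℝ, ∀ U V : ℝ, 1 ≤ U → U ^ 8 ≤ V →
    ∑ v ∈ (disc V).filter (fun v => Prm v),
      (∑ A ∈ (FF gN (2 * U)).filter (fun A => U < (NN gN A : ℝ)), c A * ∏ p ∈ A, (qs p.1 v : ℝ)) ^ 2 ≤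
      C * V * ∑ A ∈ (FF gN (2 * U)).filter (fun A => U < (NN gN A : ℝ)), c A ^ 2

/-! ## Combinatorics -/

/-- the index set -/
abbrev Ix (k : ℕ) := Fin k → ZMod 2 × ZMod 2

/-- the hyperbolic quadratic form -/
def QQ {k : ℕ} (u : Ix k) : ZMod 2 := ∑ j, (u j).1 * (u j).2

open Classical in
/-- combinatorics of the quadratic form -/
def SCOMB : Prop :=
  ∀ k : ℕ,
    (∀ Λ : Finset (Ix k), (∀ u ∈ Λ, ∀ v ∈ Λ, QQ (u + v) = 0) → #Λ ≤ 2 ^ k) ∧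
    (∀ Λ : Finset (Ix k), (∀ u ∈ Λ, ∀ v ∈ Λ, QQ (u + v) = 0) → #Λ = 2 ^ k →
      (∀ v, v ∉ Λ → (∃ u ∈ Λ, QQ (u + v) = 0) ∧ ∃ u ∈ Λ, QQ (u + v) = 1) ∧
      ((∃ u ∈ Λ, QQ u = 1) → ∃ u ∈ Λ, QQ u = 0)) ∧
    #((univ : Finset (Finset (Ix k))).filter fun Λ =>
      (∀ u ∈ Λ, ∀ v ∈ Λ, QQ (u + v) = 0) ∧ #Λ = 2 ^ k ∧ ∀ u ∈ Λ, QQ u = 0) =
      ∏ i ∈ range k, (2 ^ i + 1)

/-- the constant -/
noncomputable def al : ℝ := ∏' i : ℕ, (1 - (1 / 2 : ℝ) ^ (2 * i + 1))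

/-- the method of moments -/
def SMOM : Prop :=
  ∀ (Ω : ℕ → Type) (F : ∀ n, Finset (Ω n)) (X : ∀ n, Ω n → ℕ), (∀ n, (F n).Nonempty) →
    (∀ n, ∀ ω ∈ F n, ∃ j, X n ω = 2 ^ j) →
    (∀ k : ℕ, Filter.Tendsto (fun n => (∑ ω ∈ F n, (X n ω : ℝ) ^ k) / #(F n)) Filter.atTop
      (nhds (∏ i ∈ range k, ((2 : ℝ) ^ i + 1)))) →
    Filter.Tendsto (fun n => (#((F n).filter fun ω => X n ω = 1) : ℝ) / #(F n)) Filter.atTop
      (nhds al)

end Pool.Agent.Y690.PP
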