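import Mathlib

/-!
# The Hecke characters of `D y² = x³ - x`, `D` even: definitions and the statement on conjugation
-/

set_option autoImplicit false

open Complex IsDedekindDomain

namespace Pool.Agent.Y690.PP.Cj

/-- The norm `N(J)` of an ideal (`0` for the zero ideal, whose residue ring is infinite). -/
noncomputable def norm {R : Subring ℂ} (J : Ideal R) : ℝ := (Nat.card (R ⧸ J) : ℝ)

open Classical in
/-- The quadratic residue symbol `(α / p)` for a prime `p` of `R`: it is `0` if `p` divides `α`, `1` if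
`α` is a nonzero square modulo `p`, and `-1` if `α` is not a square modulo `p`. -/
noncomputable def symbol {R : Subring ℂ} (p α : R) : ℤ :=
  if α ∈ Ideal.span {p} then 0 else if ∃ β : R, β * β - α ∈ Ideal.span {p} then 1 else -1

open Classical in
/-- Here `f = 2 + 2 i`.  For `α = 1 + f (x + y i)` this is `(-1) ^ x` if `e = 0` and `(-1) ^ y` if
`e = 1`. -/
noncomputable def sign {R : Subring ℂ} (f : R) (e : Fin 2) (α : R) : ℤ :=
  if ∃ x y : ℤ, (if e = 0 then Even x else Even y) ∧ (α : ℂ) = 1 + f * (x + y * I) then 1 else -1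

/-- the Hecke character -/
def IsHeckeCharacter {R : Subring ℂ} (f : R) (e : Fin 2) (S : Finset R) (ψ : Ideal R → ℂ) : Prop :=
  (∀ I J : Ideal R, ψ (I * J) = ψ I * ψ J) ∧
  (∀ α : R, α - 1 ∈ Ideal.span {f} →
    ψ (Ideal.span {α}) = sign f e α * (∏ p ∈ S, symbol p α : ℤ) * α) ∧
  ∀ J : Ideal R, (¬ ∃ α : R, α - 1 ∈ Ideal.span {f} ∧ J = Ideal.span {α}) → ψ J = 0

/-- nonvanishing in all degrees -/
def Nonvanishing {R : Subring ℂ} (f : R) (e : Fin 2) (S : Finset R) : Prop :=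
  ∃ ψ : Ideal R → ℂ, IsHeckeCharacter f e S ψ ∧ ∀ k a b : ℕ, 1 ≤ k → a + b = 2 * k - 1 →
    ∃ L : ℂ → ℂ, Differentiable ℂ L ∧
      (∀ s : ℂ, (k : ℝ) + 1 / 2 < s.re → HasProd (fun P : HeightOneSpectrum R =>
        (1 - ψ P.asIdeal ^ a * (starRingEnd ℂ) (ψ P.asIdeal) ^ b *
          (norm P.asIdeal : ℂ) ^ (-s))⁻¹) (L s)) ∧
      L k ≠ 0

/-- complex conjugation exchanges the two types -/
def SCONJ : Prop :=
  ∀ (R : Subring ℂ), (∀ z : ℂ, z ∈ R ↔ ∃ x y : ℤ, z = x + y * I) → ∀ f : R, (f : ℂ) = 2 + 2 * I →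
    ∀ (S S' : Finset R), (∀ p : R, p ∈ S' ↔ ∃ q ∈ S, (p : ℂ) = (starRingEnd ℂ) (q : ℂ)) →
      (∀ p ∈ S, Prime p) → Nonvanishing f 0 S → Nonvanishing f 1 S'

end Pool.Agent.Y690.PP.Cj
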