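import Pool.Agent.Y690.PP.Ker
import Pool.Agent.Y690.PP.Cj

/-!
# Project PP, part 2: the final form over `ℤ[i]`

Statements of the jobs.  `G = ℤ[i]`, `la = 1 + i`.
-/

set_option autoImplicit false

open Finset

namespace Pool.Agent.Y690.PP.Fn

open Pool.Agent.Y690.PP

/-- `1 + i` -/
def la : G := ⟨1, 1⟩

/-- the product of a set of primes -/
def PA (A : Finset Pr) : G := ∏ p ∈ A, p.1

/-- `L` is the Hecke `L`-function of `ψ_D ^ a * conj ψ_D ^ b`: the product over the primes `p`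
congruent to `1` modulo `2 + 2 i`; `ψ_D((p)) = (D / p) p`. -/
def IsLFunction (D : G) (a b : ℕ) (L : ℂ → ℂ) : Prop :=
  Differentiable ℂ L ∧ ∀ s : ℂ, ((a : ℝ) + b) / 2 + 1 < s.re →
    HasProd (fun p : Pr => (1 - (qs p.1 D : ℂ) * (p.1 : ℂ) ^ a * (starRingEnd ℂ) (p.1 : ℂ) ^ b *
      ((p.1.norm : ℤ) : ℂ) ^ (-s))⁻¹) (L s)

/-- the `L`-functions do not vanish at the centre -/
def GoodL (D : G) : Prop :=
  ∀ k a b : ℕ, 1 ≤ k → a + b = 2 * k - 1 → ∃ L : ℂ → ℂ, IsLFunction D a b L ∧ L k ≠ 0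

/-- the curve `D y² = x³ - x` has no points but those of order two -/
def GoodP (D : G) : Prop :=
  ∀ x y : FractionRing G, algebraMap G (FractionRing G) D * y ^ 2 = x ^ 3 - x → y = 0

/-- SUPP: the supplementary law `((1 + i) / p) = (-1) ^ x` for `p = 1 + (2 + 2 i) (x + y i)` -/
def SSUPP : Prop := ∀ p : G, Prime p → Prm p → qs p la = sg p

/-- CNT1: the even squarefree Gaussian integers are the products of a unit, `1 + i` and a
set of primes congruent to one. -/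
def SCNT1 : Prop :=
  ∀ D : G, (Squarefree D ∧ la ∣ D) ↔ ∃ (u : G) (A : Finset Pr), IsUnit u ∧ D = u * la * PA A

/-- CNT2: uniqueness -/
def SCNT2 : Prop :=
  ∀ (u u' : G) (A A' : Finset Pr), IsUnit u → IsUnit u' → u * la * PA A = u' * la * PA A' →
    u = u' ∧ A = A'

/-- the even squarefree Gaussian integers of norm at most `X` -/
def Tw (X : ℝ) : Set G := {D | Squarefree D ∧ la ∣ D ∧ ((D.norm : ℤ) : ℝ) ≤ X}

open Classical in
/-- CNT: counting -/
def SCNT : Prop :=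
  ∀ X : ℝ, (Tw X).Finite ∧ (Tw X).ncard = 4 * #(FF gN (X / 2)) ∧
    ∀ (Q : G → Prop) (T : Finset Pr → Prop), (∀ D, Q D → Q (-D)) → (∀ D, Q D → Q (star D)) →
      (∀ A, T A → Q (la * PA A)) →
      4 * #((FF gN (X / 2)).filter fun A => T A) ≤ {D ∈ Tw X | Q D}.ncard

/-- INV: invariance under the sign and conjugation -/
def SINV : Prop :=
  (∀ D : G, GoodL D → GoodL (-D)) ∧ (∀ D : G, GoodL D → GoodL (star D)) ∧
    (∀ D : G, GoodP D → GoodP (-D)) ∧ ∀ D : G, GoodP D → GoodP (star D)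

/-- EUL: the Euler product over the primes congruent to one.  `S` is the set `A` seen in the
subring `R` of `ℂ`. -/
def SEUL : Prop :=
  ∀ (R : Subring ℂ), (∀ z : ℂ, z ∈ R ↔ ∃ x y : ℤ, z = x + y * Complex.I) →
    ∀ f : R, (f : ℂ) = 2 + 2 * Complex.I → ∀ (A : Finset Pr) (S : Finset R),
      (∀ p : R, p ∈ S ↔ ∃ q ∈ A, (p : ℂ) = (q.1 : ℂ)) → Cj.Nonvanishing f 0 S →
        GoodL (la * PA A)

/-- the condition on the set of primes -/
def TK (A : Finset Pr) : Prop := XX gs gt A = 1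

/-- DSC: descent -/
def SDSC : Prop := ∀ A : Finset Pr, TK A → GoodP (la * PA A)

open Classical in
/-- KER: the condition in terms of subsets -/
def SKER : Prop :=
  ∀ A : Finset Pr, TK A → ∀ V : Finset Pr, V ⊆ A → (∀ p ∈ V, gt p * ∏ q ∈ A \ V, gs q p = 1) →
    (∀ p ∈ A \ V, ∏ q ∈ V, gs q p = 1) → V = ∅

open Classical in
/-- DSC1: the first step of the descent.  Here `D = (1 + i) ∏ A`, `τ(x) = (x + 1) / (x - 1)`. -/
def SDSC1 : Prop :=
  ∀ (A : Finset Pr) (x y : FractionRing G), y ≠ 0 →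
    algebraMap G (FractionRing G) (la * PA A) * y ^ 2 = x ^ 3 - x →
    ∃ (V : Finset Pr) (w : FractionRing G), V ⊆ A ∧
      (algebraMap G (FractionRing G) (la * PA A) * x = algebraMap G (FractionRing G) (PA V) * w ^ 2 ∨
        algebraMap G (FractionRing G) (la * PA A) * ((x + 1) / (x - 1)) =
          algebraMap G (FractionRing G) (PA V) * w ^ 2) ∧
      (∀ p ∈ V, gt p * ∏ q ∈ A \ V, gs q p = 1) ∧ (∀ p ∈ A \ V, ∏ q ∈ V, gs q p = 1)

end Pool.Agent.Y690.PP.Fn
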