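import Pool.Agent.Y690.PP.Mo
import Pool.Agent.Y690.W.Fin1
import Pool.Agent.Y678.PP.Bas

/-!
# Transfer to the subring of `ℂ`
-/

set_option autoImplicit false
set_option linter.unusedSectionVars false

open Finset Filter

namespace Pool.Agent.Y690.PP

variable {R : Subring ℂ} (hR : ∀ z : ℂ, z ∈ R ↔ ∃ x y : ℤ, z = x + y * Complex.I)

/-- the isomorphism -/
noncomputable def phi : G ≃+* R :=
  RingEquiv.ofBijective (GaussianInt.toComplex.codRestrict R fun z =>
    (hR _).mpr ⟨z.re, z.im, GaussianInt.toComplex_def z⟩) (by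
    constructor
    · intro a b h
      have h1 : (GaussianInt.toComplex a) = GaussianInt.toComplex b := congrArg Subtype.val h
      exact GaussianInt.toComplex_inj.mp h1
    · intro r
      obtain ⟨x, y, h⟩ := (hR r).mp r.2
      refine ⟨⟨x, y⟩, Subtype.ext ?_⟩
      show GaussianInt.toComplex ⟨x, y⟩ = r
      rw [GaussianInt.toComplex_def, h])

lemma phi_coe (z : G) : ((phi hR z : R) : ℂ) = z.re + z.im * Complex.I :=
  GaussianInt.toComplex_def z

lemma phi_mk (x y : ℤ) : phi hR ⟨x, y⟩ = Pool.Agent.Y690.NV.mkz hR x y :=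
  Subtype.ext (by rw [phi_coe, Pool.Agent.Y690.NV.mkz_coe])

lemma phi_ff : phi hR ⟨2, 2⟩ = Pool.Agent.Y690.NV.ff hR :=
  Subtype.ext (by
    rw [phi_coe, Pool.Agent.Y690.NV.ff_coe]
    push_cast
    ring)

lemma phi_mem (p a : G) : phi hR a ∈ Pool.Agent.W192.HK.sp (phi hR p) ↔ p ∣ a := by
  unfold Pool.Agent.W192.HK.sp
  rw [Ideal.mem_span_singleton, map_dvd_iff]

lemma phi_qs (p a : G) : Pool.Agent.Y690.NV.qs (phi hR p) (phi hR a) = qs p a := by
  unfold Pool.Agent.Y690.NV.qs qs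
  rw [phi_mem]
  have h : (∃ β : R, β * β - phi hR a ∈ Pool.Agent.W192.HK.sp (phi hR p)) ↔
      ∃ b : G, p ∣ b * b - a := by
    constructor
    · rintro ⟨β, h⟩
      obtain ⟨b, rfl⟩ := (phi hR).surjective β
      refine ⟨b, ?_⟩
      rw [← map_mul, ← map_sub, phi_mem] at h
      exact h
    · rintro ⟨b, h⟩
      refine ⟨phi hR b, ?_⟩
      rw [← map_mul, ← map_sub, phi_mem]
      exact h
  by_cases h1 : p ∣ a
  · rw [if_pos h1, if_pos h1]
  · rw [if_neg h1, if_neg h1]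
    by_cases h2 : ∃ b : G, p ∣ b * b - a
    · rw [if_pos (h.mpr h2), if_pos h2]
    · rw [if_neg (fun h3 => h2 (h.mp h3)), if_neg h2]

lemma phi_pri (a : G) : Pool.Agent.Y690.AW.Pri (phi hR a) ↔ Prm a := by
  rw [← Pool.Agent.Y690.AW.pri_iff hR]
  unfold Prm
  have h1 : phi hR a - 1 = phi hR (a - 1) := by rw [map_sub, map_one]
  rw [h1, ← phi_ff hR]
  exact phi_mem hR _ _

lemma phi_sg (a : G) : Pool.Agent.Y690.AW.sg hR (phi hR a) = sg a := by
  unfold Pool.Agent.Y690.AW.sg sg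
  have h : (∃ x y : ℤ, Even x ∧ phi hR a = 1 + Pool.Agent.Y690.NV.ff hR *
      Pool.Agent.Y690.NV.mkz hR x y) ↔ ∃ x y : ℤ, Even x ∧ a = 1 + (⟨2, 2⟩ : G) * ⟨x, y⟩ := by
    constructor
    · rintro ⟨x, y, hx, h⟩
      refine ⟨x, y, hx, (phi hR).injective ?_⟩
      rw [h, map_add, map_mul, map_one, phi_ff, phi_mk]
    · rintro ⟨x, y, hx, h⟩
      refine ⟨x, y, hx, ?_⟩
      rw [h, map_add, map_mul, map_one, phi_ff, phi_mk]
  by_cases h2 : ∃ x y : ℤ, Even x ∧ a = 1 + (⟨2, 2⟩ : G) * ⟨x, y⟩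
  · rw [if_pos (h.mpr h2), if_pos h2]
  · rw [if_neg (fun h3 => h2 (h.mp h3)), if_neg h2]

/-- the embedding -/
noncomputable def em : Pr ↪ R where
  toFun p := phi hR p.1
  inj' p q h := Subtype.ext ((phi hR).injective h)

lemma em_coe (p : Pr) : em hR p = phi hR p.1 := rfl

lemma em_prime (p : Pr) : Prime (em hR p) ∧ Pool.Agent.Y690.AW.Pri (em hR p) :=
  ⟨(MulEquiv.prime_iff (phi hR).toMulEquiv).mpr p.2.1, (phi_pri hR p.1).mpr p.2.2⟩

lemma exists_em {S : Finset R} (hS : ∀ p ∈ S, Prime p ∧ Pool.Agent.Y690.AW.Pri p) :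
    ∃ A : Finset Pr, A.map (em hR) = S := by
  classical
  have h : ∀ p ∈ S, ∃ a : Pr, em hR a = p := by
    intro p hp
    obtain ⟨a, rfl⟩ := (phi hR).surjective p
    obtain ⟨h1, h2⟩ := hS _ hp
    exact ⟨⟨a, (MulEquiv.prime_iff (phi hR).toMulEquiv).mp h1, (phi_pri hR a).mp h2⟩, rfl⟩
  refine ⟨S.preimage (em hR) (em hR).injective.injOn, ?_⟩
  ext p
  rw [Finset.mem_map]
  constructor
  · rintro ⟨a, ha, rfl⟩
    exact mem_preimage.mp ha
  · intro hp
    obtain ⟨a, rfl⟩ := h p hp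
    exact ⟨a, mem_preimage.mpr hp, rfl⟩

open Classical in
lemma prod_ind (A W : Finset Pr) (hW : W ⊆ A) (F : Pr → ℝ) (c : ZMod 2) :
    ∏ q : A, F q ^ ((if (q : Pr) ∈ W then (1 : ZMod 2) else 0) + c).val =
      if c = 1 then ∏ q ∈ A \ W, F q else ∏ q ∈ W, F q := by
  rw [Finset.prod_coe_sort A (fun q => F q ^ ((if q ∈ W then (1 : ZMod 2) else 0) + c).val)]
  have hval1 : ((1 : ZMod 2)).val = 1 := rfl
  have hval0 : ((0 : ZMod 2)).val = 0 := rfl
  have h2 : (1 : ZMod 2) + 1 = 0 := rfl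
  rw [← Finset.prod_sdiff hW]
  by_cases hc : c = 1
  · subst hc
    rw [if_pos rfl]
    have h3 : ∏ q ∈ W, F q ^ ((if q ∈ W then (1 : ZMod 2) else 0) + 1).val = 1 := by
      refine Finset.prod_eq_one fun q hq => ?_
      rw [if_pos hq, h2, hval0, pow_zero]
    rw [h3, mul_one]
    refine Finset.prod_congr rfl fun q hq => ?_
    rw [if_neg (mem_sdiff.mp hq).2, zero_add, hval1, pow_one]
  · have hc0 : c = 0 := by
      revert hc
      fin_cases c
      · intro _; rfl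
      · intro h; exact absurd rfl h
    subst hc0
    rw [if_neg hc]
    have h3 : ∏ q ∈ A \ W, F q ^ ((if q ∈ W then (1 : ZMod 2) else 0) + 0).val = 1 := by
      refine Finset.prod_eq_one fun q hq => ?_
      rw [if_neg (mem_sdiff.mp hq).2, zero_add, hval0, pow_zero]
    rw [h3, one_mul]
    refine Finset.prod_congr rfl fun q hq => ?_
    rw [if_pos hq, add_zero, hval1, pow_one]

lemma cast_prod_map (W : Finset Pr) (p : Pr) :
    ((∏ l ∈ W.map (em hR), Pool.Agent.Y690.NV.qs l (em hR p) : ℤ) : ℝ) = ∏ q ∈ W, gs q p := by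
  rw [Finset.prod_map]
  push_cast
  refine Finset.prod_congr rfl fun q _ => ?_
  rw [em_coe, em_coe, phi_qs]
  rfl

open Classical in
/-- trivial kernel implies oddness -/
theorem odd_of_XX (hrec : SREC) {A : Finset Pr} (h1 : XX gs gt A = 1) :
    ∀ V ⊆ A.map (em hR), V.Nonempty →
      (∃ p ∈ V, Pool.Agent.Y690.AW.sg hR p * ∏ l ∈ A.map (em hR) \ V, Pool.Agent.Y690.NV.qs l p = -1) ∨
      (∃ p ∈ A.map (em hR) \ V, ∏ l ∈ V, Pool.Agent.Y690.NV.qs l p = -1) := by
  intro V hV hne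
  have hb := basic_gs hrec
  obtain ⟨W, hW⟩ := exists_em hR (S := V) (fun p hp => by
    obtain ⟨a, _, rfl⟩ := Finset.mem_map.mp (hV hp)
    exact em_prime hR a)
  subst hW
  rw [Finset.map_subset_map] at hV
  rw [Finset.map_nonempty] at hne
  rw [← Finset.map_sdiff]
  set ν : A → ZMod 2 := fun p => if (p : Pr) ∈ W then 1 else 0 with hν
  have hcc : ∀ p : A, cc gs gt A ν p =
      if (p : Pr) ∈ W then gt p * ∏ q ∈ A \ W, gs q p else ∏ q ∈ W, gs q p := by
    intro p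
    have h2 := prod_ind A W hV (fun q => gs q p) (ν p)
    have h3 : cc gs gt A ν p = gt p ^ (ν p).val *
        (if ν p = 1 then ∏ q ∈ A \ W, gs q p else ∏ q ∈ W, gs q p) := by
      unfold cc
      exact congrArg (fun z => gt p ^ (ν p).val * z) h2
    rw [h3]
    by_cases h : (p : Pr) ∈ W
    · have h5 : ν p = 1 := if_pos h
      have hval1 : ((1 : ZMod 2)).val = 1 := rfl
      rw [if_pos h, if_pos h5, h5, hval1, pow_one]
    · have h5 : ν p = 0 := if_neg h
      have h6 : ν p ≠ 1 := by rw [h5]; decide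
      have hval0 : ((0 : ZMod 2)).val = 0 := rfl
      rw [if_neg h, if_neg h6, h5, hval0, pow_zero, one_mul]
  by_contra hcon
  push Not at hcon
  obtain ⟨hc1, hc2⟩ := hcon
  have hker : ν ∈ Kn gs gt A := by
    unfold Kn
    rw [mem_filter]
    refine ⟨mem_univ _, fun p => ?_⟩
    rcases cc_pm hb A ν p with h | h
    · exact h
    · exfalso
      rw [hcc] at h
      by_cases hp : (p : Pr) ∈ W
      · rw [if_pos hp] at h
        refine hc1 (em hR p) (Finset.mem_map_of_mem _ hp) ?_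
        have h3 : ((Pool.Agent.Y690.AW.sg hR (em hR (p : Pr)) *
            ∏ l ∈ (A \ W).map (em hR), Pool.Agent.Y690.NV.qs l (em hR (p : Pr)) : ℤ) : ℝ) = -1 := by
          rw [Int.cast_mul, cast_prod_map, em_coe, phi_sg]
          exact h
        exact_mod_cast h3
      · rw [if_neg hp] at h
        refine hc2 (em hR p) (Finset.mem_map_of_mem _ (mem_sdiff.mpr ⟨p.2, hp⟩)) ?_
        have h3 : ((∏ l ∈ W.map (em hR), Pool.Agent.Y690.NV.qs l (em hR (p : Pr)) : ℤ) : ℝ) = -1 := by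
          rw [cast_prod_map]
          exact h
        exact_mod_cast h3
  have h0 : (0 : A → ZMod 2) ∈ Kn gs gt A := by
    unfold Kn
    rw [mem_filter]
    refine ⟨mem_univ _, fun p => ?_⟩
    unfold cc
    simp
  unfold XX at h1
  obtain ⟨μ, hμ⟩ := Finset.card_eq_one.mp h1
  rw [hμ, mem_singleton] at hker h0
  obtain ⟨p, hp⟩ := hne
  have h4 : ν ⟨p, hV hp⟩ = 0 := by
    rw [hker, ← h0]
    rfl
  rw [hν] at h4
  simp only [if_pos hp] at h4
  exact absurd h4 (by decide)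

open Pool.Agent.W192.HK in
/-- trivial kernel implies the hypothesis of the nonvanishing theorem -/
theorem adm_of_XX (hrec : SREC) (hbasic : H_BASIC) {A : Finset Pr} (h1 : XX gs gt A = 1) :
    Pool.Agent.Y690.AW.Adm1 hR (A.map (em hR)) := by
  classical
  refine Pool.Agent.Y690.AW.adm1_of hR hbasic (fun p hp => ?_) ?_
  · obtain ⟨a, _, rfl⟩ := Finset.mem_map.mp hp
    exact em_prime hR a
  · have := odd_of_XX hR hrec h1
    intro V hV hne
    convert this V hV hne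

lemma norm_phi (z : G) : ‖((phi hR z : R) : ℂ)‖ ^ 2 = (nm z : ℝ) := by
  rw [Pool.Agent.Y678.PP.nm_eq, phi_coe, ← Complex.normSq_eq_norm_sq, Complex.normSq_apply]
  simp
  ring

/-- the norm -/
lemma norm_map (A : Finset Pr) : ‖((∏ p ∈ A.map (em hR), p : R) : ℂ)‖ ^ 2 = (NN gN A : ℝ) := by
  have h1 : ∏ p ∈ A.map (em hR), p = phi hR (∏ p ∈ A, p.1) := by
    rw [Finset.prod_map, map_prod]
    rfl
  rw [h1, ← Pool.Agent.Y678.PP.nm_prod A]
  exact norm_phi hR _

end Pool.Agent.Y690.PP
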