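import Pool.Agent.Y690.PP.Stm

/-!
# The moments of the kernel as sums over labelled sets
-/

set_option autoImplicit false
set_option linter.unusedSectionVars false

open Finset

namespace Pool.Agent.Y690.PP

variable {P : Type} {N : P → ℕ} {s : P → P → ℝ} {t : P → ℝ}

/-- the exponents -/
def ee {k : ℕ} (u v : Ix k) : ℕ := ∑ j, ((u j).1 + (v j).1).val * ((v j).2).val

/-- the exponents of the sign -/
def tu {k : ℕ} (u : Ix k) : ℕ := ∑ j, ((u j).1).val * ((u j).2).val

lemma ee_self {k : ℕ} (u : Ix k) : ee u u = 0 := by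
  unfold ee
  refine Finset.sum_eq_zero fun j _ => ?_
  rw [CharTwo.add_self_eq_zero, ZMod.val_zero, zero_mul]

lemma cast_val (a : ZMod 2) : ((a.val : ℕ) : ZMod 2) = a := ZMod.natCast_zmod_val a

lemma ee_cast {k : ℕ} (u v : Ix k) : ((ee u v + ee v u : ℕ) : ZMod 2) = QQ (u + v) := by
  unfold ee QQ
  rw [← Finset.sum_add_distrib]
  push_cast
  refine Finset.sum_congr rfl fun j _ => ?_
  rw [cast_val, cast_val, cast_val, cast_val, Pi.add_apply, Prod.fst_add, Prod.snd_add]
  ring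

lemma tu_cast {k : ℕ} (u : Ix k) : ((tu u : ℕ) : ZMod 2) = QQ u := by
  unfold tu QQ
  push_cast
  refine Finset.sum_congr rfl fun j _ => ?_
  rw [cast_val, cast_val]

lemma even_ee {k : ℕ} (u v : Ix k) : Even (ee u v + ee v u) ↔ QQ (u + v) = 0 := by
  rw [← ee_cast, ZMod.natCast_eq_zero_iff_even]

lemma odd_ee {k : ℕ} (u v : Ix k) : Odd (ee u v + ee v u) ↔ QQ (u + v) = 1 := by
  rw [← ee_cast, ZMod.natCast_eq_one_iff_odd]

lemma even_tu {k : ℕ} (u : Ix k) : Even (tu u) ↔ QQ u = 0 := by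
  rw [← tu_cast, ZMod.natCast_eq_zero_iff_even]

lemma odd_tu {k : ℕ} (u : Ix k) : Odd (tu u) ↔ QQ u = 1 := by
  rw [← tu_cast, ZMod.natCast_eq_one_iff_odd]

/-- the character of a vector -/
noncomputable def cc (s : P → P → ℝ) (t : P → ℝ) (S : Finset P) (ν : S → ZMod 2) (p : S) : ℝ :=
  t p ^ (ν p).val * ∏ q : S, s q p ^ (ν q + ν p).val

open Classical in
/-- the kernel -/
noncomputable def Kn (s : P → P → ℝ) (t : P → ℝ) (S : Finset P) : Finset (S → ZMod 2) :=
  univ.filter fun ν => ∀ p, cc s t S ν p = 1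

/-- the size of the kernel -/
noncomputable def XX (s : P → P → ℝ) (t : P → ℝ) (S : Finset P) : ℕ := #(Kn s t S)

lemma pm_pow {x : ℝ} (hx : x = 1 ∨ x = -1) (a b : ZMod 2) :
    x ^ (a + b).val = x ^ a.val * x ^ b.val := by
  have h2 : x ^ 2 = 1 := by rcases hx with rfl | rfl <;> norm_num
  rw [ZMod.val_add, ← pow_add]
  conv_rhs => rw [← Nat.mod_add_div (a.val + b.val) 2, pow_add, pow_mul, h2, one_pow, mul_one]

lemma pm_val {x : ℝ} (hx : x = 1 ∨ x = -1) (a : ℕ) : x ^ a = 1 ∨ x ^ a = -1 := by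
  rcases hx with rfl | rfl
  · simp
  · exact neg_one_pow_eq_or ℝ a

lemma pm_mul {x y : ℝ} (hx : x = 1 ∨ x = -1) (hy : y = 1 ∨ y = -1) : x * y = 1 ∨ x * y = -1 := by
  rcases hx with rfl | rfl <;> rcases hy with rfl | rfl <;> norm_num

lemma pm_prod {ι : Type} (F : Finset ι) (f : ι → ℝ) (h : ∀ i ∈ F, f i = 1 ∨ f i = -1) :
    ∏ i ∈ F, f i = 1 ∨ ∏ i ∈ F, f i = -1 := by
  classical
  induction F using Finset.induction_on with
  | empty => simp
  | insert a F ha ih =>
    rw [Finset.prod_insert ha]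
    exact pm_mul (h a (mem_insert_self _ _)) (ih fun i hi => h i (mem_insert_of_mem hi))

variable (hb : Basic N s t)

include hb

lemma s_pow (S : Finset P) (ν : S → ZMod 2) (p q : S) :
    s q p ^ (ν q + ν p).val = 1 ∨ s q p ^ (ν q + ν p).val = -1 := by
  by_cases h : q = p
  · subst h
    left
    rw [CharTwo.add_self_eq_zero, ZMod.val_zero, pow_zero]
  · exact pm_val (hb.s_val _ _ fun h' => h (Subtype.ext h')) _

lemma cc_pm (S : Finset P) (ν : S → ZMod 2) (p : S) : cc s t S ν p = 1 ∨ cc s t S ν p = -1 := by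
  unfold cc
  exact pm_mul (pm_val (hb.t_val _) _) (pm_prod _ _ fun q _ => s_pow hb S ν p q)

lemma cc_add (S : Finset P) (ν μ : S → ZMod 2) (p : S) :
    cc s t S (ν + μ) p = cc s t S ν p * cc s t S μ p := by
  unfold cc
  rw [Pi.add_apply, pm_pow (hb.t_val _)]
  have h : ∀ q : S, s q p ^ ((ν + μ) q + (ν p + μ p)).val =
      s q p ^ (ν q + ν p).val * s q p ^ (μ q + μ p).val := by
    intro q
    by_cases h : q = p
    · subst h
      rw [Pi.add_apply, CharTwo.add_self_eq_zero, CharTwo.add_self_eq_zero,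
        CharTwo.add_self_eq_zero]
      simp
    · rw [← pm_pow (hb.s_val _ _ fun h' => h (Subtype.ext h')), Pi.add_apply]
      congr 2
      ring
  rw [Finset.prod_congr rfl fun q _ => h q, Finset.prod_mul_distrib]
  ring

/-- the size of the kernel is a power of two -/
theorem XX_pow (S : Finset P) : ∃ j, XX s t S = 2 ^ j := by
  classical
  let H : AddSubgroup (S → ZMod 2) :=
    { carrier := {ν | ∀ p, cc s t S ν p = 1}
      zero_mem' := by
        intro p
        unfold cc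
        simp
      add_mem' := by
        intro ν μ hν hμ p
        rw [cc_add hb, hν p, hμ p, mul_one]
      neg_mem' := by
        intro ν hν
        have h : -ν = ν := by
          funext p
          exact ZMod.neg_eq_self_mod_two (ν p)
        rw [h]
        exact hν }
  have h1 : Nat.card H = XX s t S := by
    unfold XX Kn
    rw [Nat.card_eq_fintype_card, ← Fintype.card_coe]
    refine Fintype.card_congr ⟨fun x => ⟨x.1, Finset.mem_filter.mpr ⟨mem_univ _, x.2⟩⟩,
      fun x => ⟨x.1, (Finset.mem_filter.mp x.2).2⟩, fun _ => rfl, fun _ => rfl⟩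
  have h2 : Nat.card H ∣ Nat.card (S → ZMod 2) := AddSubgroup.card_addSubgroup_dvd_card H
  have h3 : Nat.card (S → ZMod 2) = 2 ^ (Fintype.card S) := by
    rw [Nat.card_eq_fintype_card, Fintype.card_fun, ZMod.card]
  rw [h1, h3] at h2
  obtain ⟨j, -, hj⟩ := (Nat.dvd_prime_pow Nat.prime_two).mp h2
  exact ⟨j, hj⟩

open Classical in
/-- expansion of the size of the kernel -/
lemma XX_exp (S : Finset P) : (XX s t S : ℝ) = ∑ μ : S → ZMod 2 × ZMod 2,
    ∏ p : S, ((1 / 2 : ℝ) * t p ^ ((μ p).1.val * (μ p).2.val) *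
      ∏ q : S, s q p ^ (((μ q).1 + (μ p).1).val * (μ p).2.val)) := by
  have h1 : (XX s t S : ℝ) = ∑ ν : S → ZMod 2, ∏ p : S, ∑ b : ZMod 2,
      (1 / 2 : ℝ) * cc s t S ν p ^ b.val := by
    unfold XX Kn
    rw [Finset.card_filter]
    push_cast
    refine Finset.sum_congr rfl fun ν _ => ?_
    have h2 : ∀ p : S, ∑ b : ZMod 2, (1 / 2 : ℝ) * cc s t S ν p ^ b.val =
        if cc s t S ν p = 1 then 1 else 0 := by
      intro p
      have h3 : ∑ b : ZMod 2, (1 / 2 : ℝ) * cc s t S ν p ^ b.val =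
          (1 / 2 : ℝ) * cc s t S ν p ^ 0 + (1 / 2 : ℝ) * cc s t S ν p ^ 1 := by
        exact Fin.sum_univ_two (fun b : ZMod 2 => (1 / 2 : ℝ) * cc s t S ν p ^ b.val)
      rw [h3]
      rcases cc_pm hb S ν p with h | h <;> rw [h] <;> norm_num
    rw [Finset.prod_congr rfl fun p _ => h2 p]
    by_cases h : ∀ p, cc s t S ν p = 1
    · rw [if_pos h, Finset.prod_congr rfl fun p _ => if_pos (h p), Finset.prod_const_one]
    · rw [if_neg h]
      push Not at h
      obtain ⟨p, hp⟩ := h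
      rw [Finset.prod_eq_zero (mem_univ p) (if_neg hp)]
  rw [h1]
  have h4 : ∀ ν : S → ZMod 2, ∏ p : S, ∑ b : ZMod 2, (1 / 2 : ℝ) * cc s t S ν p ^ b.val =
      ∑ β : S → ZMod 2, ∏ p : S, (1 / 2 : ℝ) * cc s t S ν p ^ (β p).val := by
    intro ν
    rw [Finset.prod_univ_sum]
    rfl
  rw [Finset.sum_congr rfl fun ν _ => h4 ν, ← Fintype.sum_prod_type']
  rw [← (Equiv.arrowProdEquivProdArrow S (fun _ => ZMod 2) (fun _ => ZMod 2)).sum_comp]
  refine Finset.sum_congr rfl fun μ _ => Finset.prod_congr rfl fun p _ => ?_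
  show (1 / 2 : ℝ) * cc s t S (fun i => (μ i).1) p ^ ((μ p).2).val = _
  unfold cc
  rw [mul_pow, ← pow_mul, ← Finset.prod_pow, mul_assoc]
  congr 2
  refine Finset.prod_congr rfl fun q _ => ?_
  rw [← pow_mul]

open Classical in
/-- expansion of the powers -/
theorem XX_pow_exp (S : Finset P) (k : ℕ) : (XX s t S : ℝ) ^ k = ∑ l : S → Ix k,
    ∏ p : S, ((1 / 2 : ℝ) ^ k * t p ^ tu (l p) * ∏ q : S, s q p ^ ee (l q) (l p)) := by
  rw [XX_exp hb, Fintype.sum_pow]
  rw [← (Equiv.piComm (fun (_ : S) (_ : Fin k) => ZMod 2 × ZMod 2)).sum_comp]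
  refine Finset.sum_congr rfl fun l _ => ?_
  rw [Finset.prod_comm]
  refine Finset.prod_congr rfl fun p _ => ?_
  rw [Finset.prod_mul_distrib, Finset.prod_mul_distrib, Finset.prod_const, Finset.card_univ,
    Fintype.card_fin]
  congr 1
  · congr 1
    rw [Finset.prod_pow_eq_pow_sum]
    rfl
  · rw [Finset.prod_comm]
    refine Finset.prod_congr rfl fun q _ => ?_
    rw [Finset.prod_pow_eq_pow_sum]
    rfl

end Pool.Agent.Y690.PP
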