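import Pool.Agent.Y690.PP.Tr
import Pool.Agent.Y901.PP.Rec
import Pool.Agent.Y944.PP.Mult
import Pool.Agent.Y808.PP.Disc
import Pool.Agent.Y427.PP.Fac
import Pool.Agent.Y658.PP.ChebA1
import Pool.Agent.Y363.PP.A2
import Pool.Agent.Y954.PP.A5
import Pool.Agent.Y692.PP.Box
import Pool.Agent.Y692.PP.A3
import Pool.Agent.Y678.PP.Cut
import Pool.Agent.Y678.PP.Box1
import Pool.Agent.Y405.PP.Comb
import Pool.Agent.Y929.PP.Mom
import Pool.Agent.Y665.PP.HR
import Pool.Agent.Y606.PP.ABSa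
import Pool.Agent.Y804.PP.Absb
import Pool.Agent.Y977.PP.ABSc
import Pool.Agent.Y944.PP.Num

/-!
# The density theorem
-/

set_option autoImplicit false

open Finset Filter

namespace Pool.Agent.Y690.PP

open Classical in
/-- The sets of primes with trivial kernel have density `al`. -/
theorem density_all :
    Tendsto (fun n : ℕ => (#((FF gN (n + 1 : ℝ)).filter fun S => XX gs gt S = 1) : ℝ) /
      #(FF gN (n + 1 : ℝ))) atTop (nhds al) := by
  have hrec := Pool.Agent.Y901.PP.Rec.t_REC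
  have hmult := Pool.Agent.Y944.PP.t_MULT
  have hmean := Pool.Agent.Y497.PP.t_MEAN hmult
  have hann := Pool.Agent.Y808.PP.t_ANN
  have hdisc := Pool.Agent.Y808.PP.t_DISC
  have hfac := Pool.Agent.Y427.PP.t_FAC
  have h1 := Pool.Agent.Y658.PP.t_A1
  have h2 := Pool.Agent.Y363.PP.t_A2 hfac
  have h5 := Pool.Agent.Y954.PP.t_A5 hfac
  have h3 := Pool.Agent.Y692.PP.t_A3 hmult hmean hdisc hfac
  have hbox1 := Pool.Agent.Y678.PP.t_BOX1 hmult hmean hdisc hfac
  have hbox := Pool.Agent.Y692.PP.t_BOX hmult hfac hbox1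
  have h4 := Pool.Agent.Y678.PP.t_A4 hrec hann hfac hbox
  have hb := basic_gs hrec
  have hHR := Pool.Agent.Y665.PP.t_HR gN gs gt hb h1
  have hw0 : ∀ k : ℕ, (0 : ℝ) < (1 / 2 : ℝ) ^ k := fun k => by positivity
  have hw1 : ∀ k : ℕ, (1 / 2 : ℝ) ^ k ≤ 1 := fun k => pow_le_one₀ (by norm_num) (by norm_num)
  refine density hrec Pool.Agent.Y405.PP.t_COMB h5 Pool.Agent.Y929.PP.t_MOM (fun k => ?_)
    (fun k => ?_) (fun k => ?_)
  · exact Pool.Agent.Y606.PP.t_ABSa gN gs gt (Ix k) _ ee tu hb h2 h4 (hw0 k).le (hw1 k) ee_self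
  · exact Pool.Agent.Y804.PP.t_ABSb gN gs gt (Ix k) _ hb h2 hHR (hw0 k).le (hw1 k)
  · exact Pool.Agent.Y977.PP.t_ABSc gN gs gt (Ix k) _ ee tu hb h2 h3 hHR (hw0 k) (hw1 k) ee_self

variable {R : Subring ℂ} (hR : ∀ z : ℂ, z ∈ R ↔ ∃ x y : ℤ, z = x + y * Complex.I)

/-- the squarefree elements of norm at most `X` congruent to one modulo `f`, as sets of primes -/
def Fam (R : Subring ℂ) (X : ℝ) : Set (Finset R) :=
  {S | (∀ p ∈ S, Prime p ∧ Pool.Agent.Y690.AW.Pri p) ∧ ‖((∏ p ∈ S, p : R) : ℂ)‖ ^ 2 ≤ X}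

open Classical in
lemma Fam_eq (X : ℝ) : Fam R X = ((FF gN X).image fun A => A.map (em hR) : Finset (Finset R)) := by
  have hb := basic_gs Pool.Agent.Y901.PP.Rec.t_REC
  ext S
  rw [Finset.coe_image, Set.mem_image]
  constructor
  · rintro ⟨h1, h2⟩
    obtain ⟨A, rfl⟩ := exists_em hR h1
    rw [norm_map] at h2
    exact ⟨A, Finset.mem_coe.mpr ((mem_FF hb).mpr h2), rfl⟩
  · rintro ⟨A, hA, rfl⟩
    refine ⟨fun p hp => ?_, ?_⟩
    · obtain ⟨a, _, rfl⟩ := Finset.mem_map.mp hp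
      exact em_prime hR a
    · rw [norm_map]
      exact (mem_FF hb).mp (Finset.mem_coe.mp hA)

include hR

theorem Fam_finite (X : ℝ) : (Fam R X).Finite := by
  classical
  rw [Fam_eq hR]
  exact Finset.finite_toSet _

open Classical in
lemma Fam_card (X : ℝ) : (Fam R X).ncard = #(FF gN X) := by
  rw [Fam_eq hR, Set.ncard_coe_finset, Finset.card_image_of_injective]
  exact Finset.map_injective _

lemma FF_floor {X : ℝ} (hX : 1 ≤ X) : FF gN X = FF gN (((⌊X⌋₊ - 1 : ℕ) : ℝ) + 1) := by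
  classical
  have hb := basic_gs Pool.Agent.Y901.PP.Rec.t_REC
  have h1 : 1 ≤ ⌊X⌋₊ := Nat.le_floor (by exact_mod_cast hX)
  ext A
  rw [mem_FF hb, mem_FF hb]
  have h2 : (((⌊X⌋₊ - 1 : ℕ) : ℝ) + 1) = (⌊X⌋₊ : ℝ) := by
    rw [Nat.cast_sub h1]
    push_cast
    ring
  rw [h2, Nat.cast_le, Nat.le_floor_iff (by linarith)]

open Pool.Agent.W192.HK in
/-- The density theorem over the subring. -/
theorem main (hbasic : H_BASIC) (Q : Finset R → Prop)
    (hQ : ∀ S, Pool.Agent.Y690.AW.Adm1 hR S → Q S) (ε : ℝ) (hε : 0 < ε) :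
    ∃ X₀ : ℝ, ∀ X ≥ X₀, (al - ε) * ((Fam R X).ncard : ℝ) ≤ ({S ∈ Fam R X | Q S}.ncard : ℝ) := by
  classical
  have hd := density_all
  have hev := hd.eventually (lt_mem_nhds (show al - ε < al by linarith))
  obtain ⟨n₀, hn₀⟩ := eventually_atTop.mp hev
  refine ⟨n₀ + 2, fun X hX => ?_⟩
  have hX1 : (1 : ℝ) ≤ X := by
    have : (0 : ℝ) ≤ n₀ := Nat.cast_nonneg _
    linarith
  have hfl : n₀ + 1 ≤ ⌊X⌋₊ := Nat.le_floor (by push_cast; linarith)
  have h1 := hn₀ (⌊X⌋₊ - 1) (by omega)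
  rw [← FF_floor hR hX1] at h1
  have hpos : (0 : ℝ) < #(FF gN X) := by
    have hb := basic_gs Pool.Agent.Y901.PP.Rec.t_REC
    have : (∅ : Finset Pr) ∈ FF gN X := by
      rw [mem_FF hb]
      unfold NN
      rw [Finset.prod_empty]
      push_cast
      exact hX1
    exact_mod_cast Finset.card_pos.mpr ⟨_, this⟩
  rw [lt_div_iff₀ hpos] at h1
  rw [Fam_card hR]
  refine h1.le.trans ?_
  have h2 : #((FF gN X).filter fun S => XX gs gt S = 1) ≤ {S ∈ Fam R X | Q S}.ncard := by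
    set T : Finset (Finset R) :=
      ((FF gN X).filter fun S => XX gs gt S = 1).image fun A => A.map (em hR) with hT
    have h3 : (T : Set (Finset R)) ⊆ {S ∈ Fam R X | Q S} := by
      intro S hS
      rw [Finset.mem_coe, hT, Finset.mem_image] at hS
      obtain ⟨A, hA, rfl⟩ := hS
      rw [Finset.mem_filter] at hA
      refine ⟨?_, hQ _ (adm_of_XX hR Pool.Agent.Y901.PP.Rec.t_REC hbasic hA.2)⟩
      rw [Fam_eq hR]
      exact Finset.mem_coe.mpr (Finset.mem_image_of_mem _ hA.1)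
    have h4 : #T = #((FF gN X).filter fun S => XX gs gt S = 1) := by
      rw [hT, Finset.card_image_of_injective]
      exact Finset.map_injective _
    rw [← h4, ← Set.ncard_coe_finset]
    exact Set.ncard_le_ncard h3 ((Fam_finite hR X).subset fun S hS => hS.1)
  exact_mod_cast h2

end Pool.Agent.Y690.PP
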