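import Pool.Agent.Y690.PP.Stm

/-!
# Gluing the estimates
-/

set_option autoImplicit false
set_option linter.unusedSectionVars false

open Finset Filter

namespace Pool.Agent.Y690.PP

variable {P : Type} {N : P → ℕ} {s : P → P → ℝ} {t : P → ℝ}
variable {I : Type} [Fintype I] [DecidableEq I]

lemma sy_abs (hb : Basic N s t) (A B : Finset P) : |sy s A B| ≤ 1 := by
  unfold sy
  rw [Finset.abs_prod]
  refine Finset.prod_le_one (fun _ _ => abs_nonneg _) fun p _ => ?_
  rw [Finset.abs_prod]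
  refine Finset.prod_le_one (fun _ _ => abs_nonneg _) fun q _ => ?_
  by_cases h : p = q
  · subst h
    rw [hb.s_self]
    norm_num
  · rcases hb.s_val p q h with h | h <;> rw [h] <;> norm_num

lemma wt_abs (hb : Basic N s t) {w : ℝ} (hw : 0 ≤ w) (e : I → I → ℕ) (τ : I → ℕ)
    (A : I → Finset P) : |wt s t w e τ A| ≤ w ^ (∑ u, #(A u)) := by
  unfold wt
  rw [abs_mul, abs_mul, abs_of_nonneg (pow_nonneg hw _), Finset.abs_prod, Finset.abs_prod]
  have h1 : ∏ u, |(∏ p ∈ A u, t p) ^ τ u| ≤ 1 := by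
    refine Finset.prod_le_one (fun _ _ => abs_nonneg _) fun u _ => ?_
    rw [abs_pow, Finset.abs_prod]
    refine pow_le_one₀ (Finset.prod_nonneg fun _ _ => abs_nonneg _) ?_
    refine Finset.prod_le_one (fun _ _ => abs_nonneg _) fun p _ => ?_
    rcases hb.t_val p with h | h <;> rw [h] <;> norm_num
  have h2 : ∏ u, |∏ v, sy s (A u) (A v) ^ e u v| ≤ 1 := by
    refine Finset.prod_le_one (fun _ _ => abs_nonneg _) fun u _ => ?_
    rw [Finset.abs_prod]
    refine Finset.prod_le_one (fun _ _ => abs_nonneg _) fun v _ => ?_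
    rw [abs_pow]
    exact pow_le_one₀ (abs_nonneg _) (sy_abs hb _ _)
  have h0 := pow_nonneg hw (∑ u, #(A u))
  have h3 : 0 ≤ ∏ u, |∏ v, sy s (A u) (A v) ^ e u v| := Finset.prod_nonneg fun _ _ => abs_nonneg _
  have h4 : 0 ≤ ∏ u, |(∏ p ∈ A u, t p) ^ τ u| := Finset.prod_nonneg fun _ _ => abs_nonneg _
  calc w ^ (∑ u, #(A u)) * (∏ u, |(∏ p ∈ A u, t p) ^ τ u|) * ∏ u, |∏ v, sy s (A u) (A v) ^ e u v|
      ≤ w ^ (∑ u, #(A u)) * 1 * 1 := by gcongr
    _ = _ := by ring

/-- the shape of the errors -/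
noncomputable def Er (C δ η : ℝ) (D : ℕ) (x Z : ℝ) : ℝ :=
  C * x * ((1 + Real.log x) ^ D * Z ^ (-δ) + Real.log x ^ (-η) * Real.log Z ^ D)

/-- the good sets -/
def Gd (e : I → I → ℕ) (τ : I → ℕ) (n : ℕ) (Λ : Finset I) : Prop :=
  (∀ u ∈ Λ, ∀ v ∈ Λ, Even (e u v + e v u)) ∧ #Λ = n ∧ ∀ u ∈ Λ, Even (τ u)

open Classical in
/-- the part of the sum -/
noncomputable def ML (N : P → ℕ) (s : P → P → ℝ) (t : P → ℝ) (w : ℝ) (e : I → I → ℕ) (τ : I → ℕ)
    (Λ : Finset I) (x Z : ℝ) : ℝ :=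
  ∑ A ∈ (TT I N x).filter (fun A => ∀ u, u ∈ Λ ↔ Z < NN N (A u)), wt s t w e τ A

lemma sum_ML (w : ℝ) (e : I → I → ℕ) (τ : I → ℕ) (x Z : ℝ) :
    ∑ Λ : Finset I, ML N s t w e τ Λ x Z = ∑ A ∈ TT I N x, wt s t w e τ A := by
  classical
  unfold ML
  rw [← Finset.sum_fiberwise (TT I N x) (fun A => univ.filter fun u => Z < NN N (A u))]
  refine Finset.sum_congr rfl fun Λ _ => ?_
  refine Finset.sum_congr ?_ fun _ _ => rfl
  refine Finset.filter_congr fun A _ => ?_
  rw [Finset.ext_iff]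
  simp only [mem_filter, mem_univ, true_and]
  exact ⟨fun h u => (h u).symm, fun h u => (h u).symm⟩

lemma log_ge_one {x : ℝ} (hx : 4 ≤ x) : 1 ≤ Real.log x := by
  have h : Real.exp 1 ≤ x := by
    have := Real.exp_one_lt_d9
    linarith
  exact (Real.le_log_iff_exp_le (by linarith)).mpr h

/-- the estimate of one part -/
theorem ML_est (hb : Basic N s t) {w : ℝ} (hw : 0 ≤ w) {n : ℕ} (hn : (n : ℝ) * w = 1)
    {e : I → I → ℕ} {τ : I → ℕ}
    (ha : SABSa N s t I w e τ) (hbb : SABSb N I w) (hc : SABSc N s t I w e τ)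
    (hC1 : ∀ Λ : Finset I, (∀ u ∈ Λ, ∀ v ∈ Λ, Even (e u v + e v u)) → #Λ ≤ n)
    (hC2 : ∀ Λ : Finset I, (∀ u ∈ Λ, ∀ v ∈ Λ, Even (e u v + e v u)) → #Λ = n →
      (∀ v, v ∉ Λ → (∃ u ∈ Λ, Even (e u v + e v u)) ∧ ∃ u ∈ Λ, Odd (e u v + e v u)) ∧
      ((∃ u ∈ Λ, Odd (τ u)) → ∃ u ∈ Λ, Even (τ u)))
    (Λ : Finset I) : ∃ (C δ η : ℝ) (D : ℕ), 0 ≤ C ∧ 0 < δ ∧ 0 < η ∧ ∀ x Z : ℝ, 4 ≤ x → 2 ≤ Z →
      Z ^ (2 * Fintype.card I) ≤ x →
      |ML N s t w e τ Λ x Z - Set.indicator {Λ | Gd e τ n Λ} (fun _ => (#(FF N x) : ℝ)) Λ| ≤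
        Er C δ η D x Z := by
  classical
  by_cases hlink : ∀ u ∈ Λ, ∀ v ∈ Λ, Even (e u v + e v u)
  · rcases (hC1 Λ hlink).lt_or_eq with hlt | heq
    · -- few large sets
      have hlt' : (#Λ : ℝ) * w < 1 := by
        have hwp : 0 < w := by
          rcases hw.lt_or_eq with h | h
          · exact h
          · rw [← h, mul_zero] at hn; norm_num at hn
        rw [← hn]
        exact mul_lt_mul_of_pos_right (by exact_mod_cast hlt) hwp
      obtain ⟨C, η, D, hη, H⟩ := hbb Λ hlt'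
      refine ⟨|C|, 1, η, D, abs_nonneg _, one_pos, hη, fun x Z hx hZ hxZ => ?_⟩
      have hng : Λ ∉ {Λ | Gd e τ n Λ} := fun h => by
        have := h.2.1
        omega
      rw [Set.indicator_of_notMem hng, sub_zero]
      have h1 : |ML N s t w e τ Λ x Z| ≤
          ∑ A ∈ (TT I N x).filter (fun A => ∀ u, u ∉ Λ → (NN N (A u) : ℝ) ≤ Z), w ^ (∑ u, #(A u)) := by
        refine (Finset.abs_sum_le_sum_abs _ _).trans ?_
        refine (Finset.sum_le_sum fun A _ => wt_abs hb hw e τ A).trans ?_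
        refine Finset.sum_le_sum_of_subset_of_nonneg ?_ fun _ _ _ => pow_nonneg hw _
        intro A hA
        rw [mem_filter] at hA ⊢
        exact ⟨hA.1, fun u hu => not_lt.mp fun h => hu ((hA.2 u).mpr h)⟩
      refine h1.trans ((H x Z hx hZ hxZ).trans ?_)
      unfold Er
      have hl := log_ge_one hx
      have hlZ : 0 ≤ Real.log Z := Real.log_nonneg (by linarith)
      have h2 : 0 ≤ (1 + Real.log x) ^ D * Z ^ (-1 : ℝ) := by positivity
      have h3 : 0 ≤ Real.log x ^ (-η) * Real.log Z ^ D := by positivity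
      calc C * x * Real.log x ^ (-η) * Real.log Z ^ D
          = C * (x * (Real.log x ^ (-η) * Real.log Z ^ D)) := by ring
        _ ≤ |C| * (x * (Real.log x ^ (-η) * Real.log Z ^ D)) :=
            mul_le_mul_of_nonneg_right (le_abs_self C) (by positivity)
        _ = |C| * x * (Real.log x ^ (-η) * Real.log Z ^ D) := by ring
        _ ≤ _ := by
            refine mul_le_mul_of_nonneg_left ?_ (by positivity)
            linarith
    · -- main
      obtain ⟨h2a, h2b⟩ := hC2 Λ hlink heq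
      obtain ⟨C, η, D, hη, H⟩ := hc Λ (by rw [heq]; exact hn) hlink h2a h2b
      have hsm : ∀ u0 ∈ Λ, ((#(Λ.erase u0) : ℕ) : ℝ) * w < 1 := by
        intro u0 hu0
        have hwp : 0 < w := by
          rcases hw.lt_or_eq with h | h
          · exact h
          · rw [← h, mul_zero] at hn; norm_num at hn
        rw [← hn]
        refine mul_lt_mul_of_pos_right ?_ hwp
        have h1 := Finset.card_erase_lt_of_mem hu0
        rw [heq] at h1
        exact_mod_cast h1
      choose! C' η' D' hη' H' using fun u0 (hu0 : u0 ∈ Λ) => hbb (Λ.erase u0) (hsm u0 hu0)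
      -- common constants
      have hex : ∃ η0 : ℝ, 0 < η0 ∧ η0 ≤ η ∧ ∀ u0 ∈ Λ, η0 ≤ η' u0 := by
        have h := (insert η (Λ.image η')).exists_min_image id ⟨η, mem_insert_self _ _⟩
        obtain ⟨m, hm, hmin⟩ := h
        refine ⟨m, ?_, hmin η (mem_insert_self _ _), fun u0 hu0 =>
          hmin _ (mem_insert_of_mem (mem_image_of_mem _ hu0))⟩
        rcases mem_insert.mp hm with h | h
        · rw [h]; exact hη
        · obtain ⟨u0, hu0, h⟩ := mem_image.mp h
          rw [← h]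
          exact hη' u0 hu0
      obtain ⟨η0, hη0, hle, hle'⟩ := hex
      set D0 : ℕ := D + ∑ u0 ∈ Λ, D' u0 with hD0
      set C0 : ℝ := |C| + ∑ u0 ∈ Λ, |C' u0| with hC0
      refine ⟨C0 * (Real.log 2)⁻¹ ^ D0, 1, η0, D0, by positivity, one_pos, hη0,
        fun x Z hx hZ hxZ => ?_⟩
      have hl := log_ge_one hx
      have hl2 : 0 < Real.log 2 := Real.log_pos (by norm_num)
      have hlZ : Real.log 2 ≤ Real.log Z := Real.log_le_log (by norm_num) hZ
      -- one term
      have hterm : ∀ (c : ℝ) (η1 : ℝ) (D1 : ℕ), η0 ≤ η1 → D1 ≤ D0 →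
          c * x * Real.log x ^ (-η1) * Real.log Z ^ D1 ≤
          |c| * ((Real.log 2)⁻¹ ^ D0 * (x * (Real.log x ^ (-η0) * Real.log Z ^ D0))) := by
        intro c η1 D1 h1 h2
        have h3 : Real.log x ^ (-η1) ≤ Real.log x ^ (-η0) :=
          Real.rpow_le_rpow_of_exponent_le hl (by linarith)
        have h4 : Real.log Z ^ D1 ≤ (Real.log 2)⁻¹ ^ D0 * Real.log Z ^ D0 := by
          rw [← mul_pow]
          have h5 : 1 ≤ (Real.log 2)⁻¹ * Real.log Z := by
            rw [inv_mul_eq_div, le_div_iff₀ hl2]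
            linarith
          have h6 : Real.log Z ≤ (Real.log 2)⁻¹ * Real.log Z := by
            have : 1 ≤ (Real.log 2)⁻¹ := by
              rw [one_le_inv₀ hl2]
              have := Real.log_two_lt_d9
              linarith
            nlinarith
          calc Real.log Z ^ D1 ≤ ((Real.log 2)⁻¹ * Real.log Z) ^ D1 := by gcongr; linarith
            _ ≤ ((Real.log 2)⁻¹ * Real.log Z) ^ D0 := pow_le_pow_right₀ h5 h2
        have hlZ0 : 0 ≤ Real.log Z := by linarith
        calc c * x * Real.log x ^ (-η1) * Real.log Z ^ D1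
            = c * (x * (Real.log x ^ (-η1) * Real.log Z ^ D1)) := by ring
          _ ≤ |c| * (x * (Real.log x ^ (-η1) * Real.log Z ^ D1)) :=
              mul_le_mul_of_nonneg_right (le_abs_self c) (by positivity)
          _ ≤ |c| * (x * (Real.log x ^ (-η0) * ((Real.log 2)⁻¹ ^ D0 * Real.log Z ^ D0))) := by
              gcongr
          _ = _ := by ring
      -- the difference
      set T := (TT I N x).filter (fun A => ∀ u, u ∉ Λ → (NN N (A u) : ℝ) ≤ Z) with hT
      have hsplit : ∑ A ∈ T, wt s t w e τ A = ML N s t w e τ Λ x Z +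
          ∑ A ∈ T.filter (fun A => ¬ ∀ u, u ∈ Λ ↔ Z < NN N (A u)), wt s t w e τ A := by
        rw [← Finset.sum_filter_add_sum_filter_not T (fun A => ∀ u, u ∈ Λ ↔ Z < NN N (A u))]
        congr 1
        unfold ML
        refine Finset.sum_congr ?_ fun _ _ => rfl
        ext A
        simp only [hT, mem_filter]
        constructor
        · exact fun h => ⟨h.1.1, h.2⟩
        · exact fun h => ⟨⟨h.1, fun u hu => not_lt.mp fun h' => hu ((h.2 u).mpr h')⟩, h.2⟩
      have hrest : |∑ A ∈ T.filter (fun A => ¬ ∀ u, u ∈ Λ ↔ Z < NN N (A u)), wt s t w e τ A| ≤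
          ∑ u0 ∈ Λ, ∑ A ∈ (TT I N x).filter (fun A => ∀ u, u ∉ Λ.erase u0 → (NN N (A u) : ℝ) ≤ Z),
            w ^ (∑ u, #(A u)) := by
        refine (Finset.abs_sum_le_sum_abs _ _).trans ?_
        refine (Finset.sum_le_sum fun A _ => wt_abs hb hw e τ A).trans ?_
        have hf0 : ∀ A : I → Finset P, 0 ≤ w ^ (∑ u, #(A u)) := fun A => pow_nonneg hw _
        calc ∑ A ∈ T.filter (fun A => ¬ ∀ u, u ∈ Λ ↔ Z < NN N (A u)), w ^ (∑ u, #(A u))
            ≤ ∑ A ∈ T.filter (fun A => ¬ ∀ u, u ∈ Λ ↔ Z < NN N (A u)), ∑ u0 ∈ Λ,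
                if (∀ u, u ∉ Λ.erase u0 → (NN N (A u) : ℝ) ≤ Z) then w ^ (∑ u, #(A u)) else 0 := by
              refine Finset.sum_le_sum fun A hA => ?_
              rw [mem_filter, hT, mem_filter] at hA
              obtain ⟨⟨_, h1⟩, h2⟩ := hA
              have h3 : ∃ u0 ∈ Λ, (NN N (A u0) : ℝ) ≤ Z := by
                by_contra h3
                push Not at h3
                refine h2 fun u => ⟨fun h => h3 u h, fun h => ?_⟩
                by_contra h4
                exact absurd (h1 u h4) (not_le.mpr h)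
              obtain ⟨u0, hu0, h4⟩ := h3
              have h5 : ∀ u, u ∉ Λ.erase u0 → (NN N (A u) : ℝ) ≤ Z := by
                intro u hu
                by_cases h6 : u = u0
                · rw [h6]; exact h4
                · exact h1 u fun h7 => hu (mem_erase.mpr ⟨h6, h7⟩)
              refine le_trans ?_ (Finset.single_le_sum (f := fun u0 =>
                if (∀ u, u ∉ Λ.erase u0 → (NN N (A u) : ℝ) ≤ Z) then w ^ (∑ u, #(A u)) else 0)
                (fun i _ => ?_) hu0)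
              · simp only [if_pos h5]
                exact le_rfl
              · show 0 ≤ _
                split_ifs
                · exact hf0 A
                · exact le_rfl
          _ ≤ ∑ A ∈ TT I N x, ∑ u0 ∈ Λ,
                if (∀ u, u ∉ Λ.erase u0 → (NN N (A u) : ℝ) ≤ Z) then w ^ (∑ u, #(A u)) else 0 := by
              refine Finset.sum_le_sum_of_subset_of_nonneg ?_ fun A _ _ => ?_
              · exact (Finset.filter_subset _ _).trans (Finset.filter_subset _ _)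
              · refine Finset.sum_nonneg fun u0 _ => ?_
                split_ifs
                · exact hf0 A
                · exact le_rfl
          _ = _ := by
              rw [Finset.sum_comm]
              refine Finset.sum_congr rfl fun u0 _ => ?_
              rw [Finset.sum_filter]
      have hmain := H x Z hx hZ hxZ
      have hind : Set.indicator {Λ | Gd e τ n Λ} (fun _ => (#(FF N x) : ℝ)) Λ =
          if ∀ u ∈ Λ, Even (τ u) then (#(FF N x) : ℝ) else 0 := by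
        by_cases h : ∀ u ∈ Λ, Even (τ u)
        · rw [if_pos h, Set.indicator_of_mem (show Λ ∈ {Λ | Gd e τ n Λ} from ⟨hlink, heq, h⟩)]
        · have h' : Λ ∉ {Λ | Gd e τ n Λ} := fun h' => h h'.2.2
          rw [if_neg h, Set.indicator_of_notMem h']
      have h6 := hterm C η D hle (by omega)
      have h7 : ∑ u0 ∈ Λ, ∑ A ∈ (TT I N x).filter
          (fun A => ∀ u, u ∉ Λ.erase u0 → (NN N (A u) : ℝ) ≤ Z), w ^ (∑ u, #(A u)) ≤
          ∑ u0 ∈ Λ, |C' u0| * ((Real.log 2)⁻¹ ^ D0 * (x * (Real.log x ^ (-η0) * Real.log Z ^ D0))) := by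
        refine Finset.sum_le_sum fun u0 hu0 => (H' u0 hu0 x Z hx hZ hxZ).trans ?_
        refine hterm (C' u0) (η' u0) (D' u0) (hle' u0 hu0) ?_
        have := Finset.single_le_sum (f := D') (fun i _ => Nat.zero_le _) hu0
        omega
      have h8 : |ML N s t w e τ Λ x Z - Set.indicator {Λ | Gd e τ n Λ} (fun _ => (#(FF N x) : ℝ)) Λ| ≤
          C0 * ((Real.log 2)⁻¹ ^ D0 * (x * (Real.log x ^ (-η0) * Real.log Z ^ D0))) := by
        rw [hind, hC0, add_mul, Finset.sum_mul]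
        have h9 : ML N s t w e τ Λ x Z = ∑ A ∈ T, wt s t w e τ A -
            ∑ A ∈ T.filter (fun A => ¬ ∀ u, u ∈ Λ ↔ Z < NN N (A u)), wt s t w e τ A := by
          rw [hsplit]; ring
        have h10 : ML N s t w e τ Λ x Z - (if ∀ u ∈ Λ, Even (τ u) then (#(FF N x) : ℝ) else 0) =
            (∑ A ∈ T, wt s t w e τ A - if ∀ u ∈ Λ, Even (τ u) then (#(FF N x) : ℝ) else 0) -
            ∑ A ∈ T.filter (fun A => ¬ ∀ u, u ∈ Λ ↔ Z < NN N (A u)), wt s t w e τ A := by
          rw [h9]; ring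
        rw [h10]
        refine (abs_sub _ _).trans ?_
        exact add_le_add (hmain.trans h6) (hrest.trans h7)
      refine h8.trans ?_
      unfold Er
      have hlZ0 : 0 ≤ Real.log Z := by linarith
      have h11 : 0 ≤ (1 + Real.log x) ^ D0 * Z ^ (-1 : ℝ) := by positivity
      have hC00 : 0 ≤ C0 := by rw [hC0]; positivity
      calc C0 * ((Real.log 2)⁻¹ ^ D0 * (x * (Real.log x ^ (-η0) * Real.log Z ^ D0)))
          = C0 * (Real.log 2)⁻¹ ^ D0 * x * (Real.log x ^ (-η0) * Real.log Z ^ D0) := by ring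
        _ ≤ _ := by
            refine mul_le_mul_of_nonneg_left ?_ (by positivity)
            linarith
  · push Not at hlink
    obtain ⟨u, hu, v, hv, huv⟩ := hlink
    rw [Nat.not_even_iff_odd] at huv
    have hne : u ≠ v := by
      rintro rfl
      rw [← two_mul] at huv
      exact (Nat.not_even_iff_odd.mpr huv) (even_two_mul _)
    obtain ⟨C, δ, D, hδ, H⟩ := ha Λ u v hu hv hne huv
    refine ⟨|C|, δ, 1, D, abs_nonneg _, hδ, one_pos, fun x Z hx hZ hxZ => ?_⟩
    have hng : Λ ∉ {Λ | Gd e τ n Λ} := fun h =>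
      (Nat.not_even_iff_odd.mpr huv) (h.1 u hu v hv)
    rw [Set.indicator_of_notMem hng, sub_zero]
    refine (H x Z (by linarith) (by linarith)).trans ?_
    unfold Er
    have hl := log_ge_one hx
    have hlZ : 0 ≤ Real.log Z := Real.log_nonneg (by linarith)
    have h2 : 0 ≤ (1 + Real.log x) ^ D * Z ^ (-δ) := by positivity
    have h3 : 0 ≤ Real.log x ^ (-1 : ℝ) * Real.log Z ^ D := by positivity
    calc C * x * (1 + Real.log x) ^ D * Z ^ (-δ) = C * (x * ((1 + Real.log x) ^ D * Z ^ (-δ))) := by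
          ring
      _ ≤ |C| * (x * ((1 + Real.log x) ^ D * Z ^ (-δ))) :=
          mul_le_mul_of_nonneg_right (le_abs_self C) (by positivity)
      _ = |C| * x * ((1 + Real.log x) ^ D * Z ^ (-δ)) := by ring
      _ ≤ _ := by
          refine mul_le_mul_of_nonneg_left ?_ (by positivity)
          linarith

lemma tendsto_logK (K : ℕ) (hK : 1 ≤ K) : Tendsto (fun x : ℝ => Real.log x ^ K) atTop atTop :=
  (tendsto_pow_atTop (by omega)).comp Real.tendsto_log_atTop

/-- the errors are negligible -/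
lemma Er_tendsto (C δ η : ℝ) (D K : ℕ) (hη : 0 < η)
    (hK : ((D : ℝ) + 1) ≤ K * δ) :
    Tendsto (fun x : ℝ => Er C δ η D x (Real.log x ^ K) / x) atTop (nhds 0) := by
  have h1 : Tendsto (fun L : ℝ => (1 + L) ^ D * (L ^ K) ^ (-δ)) atTop (nhds 0) := by
    have h2 : Tendsto (fun L : ℝ => (2 : ℝ) ^ D * L⁻¹) atTop (nhds 0) := by
      simpa using tendsto_inv_atTop_zero.const_mul ((2 : ℝ) ^ D)
    refine squeeze_zero' ?_ ?_ h2
    · filter_upwards [eventually_ge_atTop 1] with L hL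
      positivity
    · filter_upwards [eventually_ge_atTop 1] with L hL
      have hL0 : 0 < L := by linarith
      have h3 : (1 + L) ^ D ≤ 2 ^ D * L ^ D := by
        rw [← mul_pow]
        gcongr
        linarith
      have h4 : (L ^ K) ^ (-δ) ≤ L ^ (-((D : ℝ) + 1)) := by
        rw [← Real.rpow_natCast, ← Real.rpow_mul hL0.le]
        refine Real.rpow_le_rpow_of_exponent_le hL ?_
        linarith
      have h5 : L ^ D * L ^ (-((D : ℝ) + 1)) = L⁻¹ := by
        rw [← Real.rpow_natCast L D, ← Real.rpow_add hL0]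
        rw [show (D : ℝ) + -((D : ℝ) + 1) = -1 by ring, Real.rpow_neg_one]
      calc (1 + L) ^ D * (L ^ K) ^ (-δ) ≤ (2 ^ D * L ^ D) * L ^ (-((D : ℝ) + 1)) := by gcongr
        _ = 2 ^ D * L⁻¹ := by rw [mul_assoc, h5]
  have h6 : Tendsto (fun L : ℝ => L ^ (-η) * Real.log (L ^ K) ^ D) atTop (nhds 0) := by
    have h7 : Tendsto (fun L : ℝ => (K : ℝ) ^ D * (Real.log L ^ (D : ℝ) / L ^ η)) atTop (nhds 0) := by
      have h8 := (isLittleO_log_rpow_rpow_atTop (D : ℝ) hη).tendsto_div_nhds_zero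
      simpa using h8.const_mul ((K : ℝ) ^ D)
    refine h7.congr' ?_
    filter_upwards [eventually_ge_atTop 1] with L hL
    have hL0 : 0 < L := by linarith
    rw [Real.log_pow, mul_pow, Real.rpow_natCast, Real.rpow_neg hL0.le]
    ring
  have h9 : Tendsto (fun L : ℝ => C * ((1 + L) ^ D * (L ^ K) ^ (-δ) +
      L ^ (-η) * Real.log (L ^ K) ^ D)) atTop (nhds 0) := by
    simpa using (h1.add h6).const_mul C
  refine (h9.comp Real.tendsto_log_atTop).congr' ?_
  filter_upwards [eventually_ge_atTop 1] with x hx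
  have hx0 : x ≠ 0 := by linarith
  simp only [Function.comp, Er]
  field_simp

open Classical in
/-- the moment theorem -/
theorem glue (hb : Basic N s t) {w : ℝ} (hw : 0 ≤ w) {n : ℕ} (hn : (n : ℝ) * w = 1)
    {e : I → I → ℕ} {τ : I → ℕ}
    (ha : SABSa N s t I w e τ) (hbb : SABSb N I w) (hc : SABSc N s t I w e τ) (h5 : A5 N)
    (hC1 : ∀ Λ : Finset I, (∀ u ∈ Λ, ∀ v ∈ Λ, Even (e u v + e v u)) → #Λ ≤ n)
    (hC2 : ∀ Λ : Finset I, (∀ u ∈ Λ, ∀ v ∈ Λ, Even (e u v + e v u)) → #Λ = n →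
      (∀ v, v ∉ Λ → (∃ u ∈ Λ, Even (e u v + e v u)) ∧ ∃ u ∈ Λ, Odd (e u v + e v u)) ∧
      ((∃ u ∈ Λ, Odd (τ u)) → ∃ u ∈ Λ, Even (τ u))) :
    Tendsto (fun x : ℝ => (∑ A ∈ TT I N x, wt s t w e τ A) / #(FF N x)) atTop
      (nhds (#((univ : Finset (Finset I)).filter fun Λ => Gd e τ n Λ) : ℝ)) := by
  choose C δ η D hC hδ hη H using ML_est hb hw hn ha hbb hc hC1 hC2
  obtain ⟨c, hc0, hcx⟩ := h5
  -- the exponent
  obtain ⟨K, hK1, hK⟩ : ∃ K : ℕ, 1 ≤ K ∧ ∀ Λ, ((D Λ : ℝ) + 1) ≤ K * δ Λ := by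
    refine ⟨1 + ∑ Λ : Finset I, ⌈((D Λ : ℝ) + 1) / δ Λ⌉₊, by omega, fun Λ => ?_⟩
    have h1 : ⌈((D Λ : ℝ) + 1) / δ Λ⌉₊ ≤ ∑ Λ : Finset I, ⌈((D Λ : ℝ) + 1) / δ Λ⌉₊ :=
      Finset.single_le_sum (f := fun Λ => ⌈((D Λ : ℝ) + 1) / δ Λ⌉₊) (fun i _ => Nat.zero_le _)
        (mem_univ Λ)
    have h2 : ((D Λ : ℝ) + 1) / δ Λ ≤ ((1 + ∑ Λ : Finset I, ⌈((D Λ : ℝ) + 1) / δ Λ⌉₊ : ℕ) : ℝ) := by
      refine (Nat.le_ceil _).trans ?_
      exact Nat.cast_le.mpr (h1.trans (Nat.le_add_left _ _))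
    rwa [div_le_iff₀ (hδ Λ)] at h2
  -- the total error
  have herr : Tendsto (fun x : ℝ => ∑ Λ : Finset I,
      Er (C Λ) (δ Λ) (η Λ) (D Λ) x (Real.log x ^ K) / x) atTop (nhds 0) := by
    have := tendsto_finsetSum (univ : Finset (Finset I)) fun Λ _ =>
      Er_tendsto (C Λ) (δ Λ) (η Λ) (D Λ) K (hη Λ) (hK Λ)
    simpa using this
  have herr' := herr.const_mul c⁻¹
  rw [mul_zero] at herr'
  rw [tendsto_iff_norm_sub_tendsto_zero]
  refine squeeze_zero' (Eventually.of_forall fun _ => norm_nonneg _) ?_ herr'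
  have hev : ∀ᶠ x : ℝ in atTop, (Real.log x ^ K) ^ (2 * Fintype.card I) ≤ x := by
    have h1 := (isLittleO_log_rpow_atTop (r := 1) one_pos)
    have h2 : (fun x : ℝ => Real.log x ^ (K * (2 * Fintype.card I))) =o[atTop] fun x => x := by
      have h3 := isLittleO_log_rpow_rpow_atTop ((K * (2 * Fintype.card I) : ℕ) : ℝ) one_pos
      simp only [Real.rpow_natCast, Real.rpow_one] at h3
      exact h3
    filter_upwards [h2.bound one_pos, eventually_ge_atTop 4] with x hx hx4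
    rw [one_mul, Real.norm_of_nonneg (by linarith : (0 : ℝ) ≤ x),
      Real.norm_of_nonneg (pow_nonneg (by have := log_ge_one hx4; linarith) _)] at hx
    rw [← pow_mul]
    exact hx
  have hev2 : ∀ᶠ x : ℝ in atTop, 2 ≤ Real.log x ^ K :=
    (tendsto_logK K hK1).eventually (eventually_ge_atTop 2)
  filter_upwards [hev, hev2, eventually_ge_atTop 4] with x hx1 hx2 hx4
  have hx0 : 0 < x := by linarith
  have hF : 0 < (#(FF N x) : ℝ) := lt_of_lt_of_le (by positivity) (hcx x (by linarith))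
  have hsum : ∑ A ∈ TT I N x, wt s t w e τ A -
      (#((univ : Finset (Finset I)).filter fun Λ => Gd e τ n Λ) : ℝ) * #(FF N x) =
      ∑ Λ : Finset I, (ML N s t w e τ Λ x (Real.log x ^ K) -
        Set.indicator {Λ | Gd e τ n Λ} (fun _ => (#(FF N x) : ℝ)) Λ) := by
    rw [Finset.sum_sub_distrib, sum_ML]
    congr 1
    simp only [Set.indicator_apply, Set.mem_ofPred_eq]
    rw [← Finset.sum_filter, Finset.sum_const, nsmul_eq_mul]
  have h1 : |∑ A ∈ TT I N x, wt s t w e τ A -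
      (#((univ : Finset (Finset I)).filter fun Λ => Gd e τ n Λ) : ℝ) * #(FF N x)| ≤
      ∑ Λ : Finset I, Er (C Λ) (δ Λ) (η Λ) (D Λ) x (Real.log x ^ K) := by
    rw [hsum]
    refine (Finset.abs_sum_le_sum_abs _ _).trans (Finset.sum_le_sum fun Λ _ => ?_)
    exact H Λ x _ hx4 hx2 hx1
  have h2 : 0 ≤ ∑ Λ : Finset I, Er (C Λ) (δ Λ) (η Λ) (D Λ) x (Real.log x ^ K) :=
    (abs_nonneg _).trans h1
  rw [Real.norm_eq_abs]
  have h3 : (∑ A ∈ TT I N x, wt s t w e τ A) / #(FF N x) -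
      (#((univ : Finset (Finset I)).filter fun Λ => Gd e τ n Λ) : ℝ) =
      (∑ A ∈ TT I N x, wt s t w e τ A -
      (#((univ : Finset (Finset I)).filter fun Λ => Gd e τ n Λ) : ℝ) * #(FF N x)) / #(FF N x) := by
    field_simp
  rw [h3, abs_div, abs_of_pos hF, ← Finset.sum_div]
  calc |∑ A ∈ TT I N x, wt s t w e τ A -
      (#((univ : Finset (Finset I)).filter fun Λ => Gd e τ n Λ) : ℝ) * #(FF N x)| / #(FF N x)
      ≤ (∑ Λ : Finset I, Er (C Λ) (δ Λ) (η Λ) (D Λ) x (Real.log x ^ K)) / (c * x) := by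
        refine div_le_div₀ h2 h1 (by positivity) (hcx x (by linarith))
    _ = _ := by field_simp

end Pool.Agent.Y690.PP
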