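import Pool.Agent.Y690.PP.Last0
import Pool.Agent.Y37.PP.Cnt1
import Pool.Agent.Y100.PP.Cnt
import Pool.Agent.Y674.PP.Eul
import Pool.Agent.Y259.PP.Ker
import Pool.Agent.Y259.PP.Inv
import Pool.Agent.Y547.PP.Dsc1

/-!
# The last theorem
-/

set_option autoImplicit false

open Finset Filter

namespace Pool.Agent.Y690.PP.Fn

open Pool.Agent.Y690.PP

open Classical in
/-- the final theorem -/
theorem last :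
    (419 / 1000 : ℝ) < al ∧
    (∀ X : ℝ, (Tw X).Finite) ∧
    (∃ c : ℝ, 0 < c ∧ ∀ X : ℝ, 2 ≤ X → c * X ≤ ((Tw X).ncard : ℝ)) ∧
    ∀ ε : ℝ, 0 < ε → ∃ X₀ : ℝ, ∀ X : ℝ, X₀ ≤ X →
      (al - ε) * ((Tw X).ncard : ℝ) ≤ ({D ∈ Tw X | GoodP D ∧ GoodL D}.ncard : ℝ) :=
  last_of (Pool.Agent.Y100.PP.t_CNT Pool.Agent.Y37.PP.t_CNT1 Pool.Agent.Y37.PP.t_CNT2)
    Pool.Agent.Y259.PP.t_INV (Pool.Agent.Y674.PP.t_EUL Pool.Agent.Y983.PP.t_SUPP)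
    Pool.Agent.Y259.PP.t_KER (Pool.Agent.Y547.PP.t_DSC1 Pool.Agent.Y983.PP.t_SUPP)

end Pool.Agent.Y690.PP.Fn
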