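import Pool.Agent.Y690.PP.Lab
import Pool.Agent.Y690.PP.Glue
import Pool.Agent.Y692.PP.Base
import Pool.Agent.Y497.PP.Mean

/-!
# The moments of the kernel over the Gaussian integers
-/

set_option autoImplicit false

open Finset Filter

namespace Pool.Agent.Y690.PP

/-- the basic facts over the Gaussian integers -/
theorem basic_gs (h1 : SREC) : Basic gN gs gt where
  two_le p := Pool.Agent.Y692.PP.gN_ge p
  fin x := Pool.Agent.Y692.PP.PB_finite x
  s_self p := by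
    unfold gs qs
    rw [if_pos (dvd_refl _)]
    norm_num
  s_val p q h := by
    unfold gs qs
    rw [if_neg (Pool.Agent.Y497.PP.coprime_ne h)]
    split_ifs <;> norm_num
  s_symm p q := by
    unfold gs
    rw [h1 p.1 q.1 p.2.1 p.2.2 q.2.1 q.2.2]
  t_val p := by
    unfold gt sg
    split_ifs <;> norm_num

/-- all moments -/
theorem moments (h1 : SREC) (hcomb : SCOMB) (h5 : A5 gN)
    (ha : ∀ k, SABSa gN gs gt (Ix k) ((1 / 2 : ℝ) ^ k) ee tu)
    (hbb : ∀ k, SABSb gN (Ix k) ((1 / 2 : ℝ) ^ k))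
    (hc : ∀ k, SABSc gN gs gt (Ix k) ((1 / 2 : ℝ) ^ k) ee tu) (k : ℕ) :
    Tendsto (fun x : ℝ => (∑ S ∈ FF gN x, (XX gs gt S : ℝ) ^ k) / #(FF gN x)) atTop
      (nhds (∏ i ∈ range k, ((2 : ℝ) ^ i + 1))) := by
  classical
  obtain ⟨c1, c2, c3⟩ := hcomb k
  have hb := basic_gs h1
  have h := glue hb (w := (1 / 2 : ℝ) ^ k) (by positivity) (n := 2 ^ k)
    (by push_cast; rw [← mul_pow]; norm_num) (ha k) (hbb k) (hc k) h5
    (fun Λ hΛ => c1 Λ fun u hu v hv => (even_ee u v).mp (hΛ u hu v hv))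
    (fun Λ hΛ hn => by
      obtain ⟨d1, d2⟩ := c2 Λ (fun u hu v hv => (even_ee u v).mp (hΛ u hu v hv)) hn
      refine ⟨fun v hv => ?_, fun ⟨u, hu, hu'⟩ => ?_⟩
      · obtain ⟨⟨u, hu, hu'⟩, ⟨u1, hu1, hu1'⟩⟩ := d1 v hv
        exact ⟨⟨u, hu, (even_ee u v).mpr hu'⟩, ⟨u1, hu1, (odd_ee u1 v).mpr hu1'⟩⟩
      · obtain ⟨u', h1, h2⟩ := d2 ⟨u, hu, (odd_tu u).mp hu'⟩
        exact ⟨u', h1, (even_tu u').mpr h2⟩)
  have hcard : (#((univ : Finset (Finset (Ix k))).filter fun Λ => Gd ee tu (2 ^ k) Λ) : ℝ) =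
      ∏ i ∈ range k, ((2 : ℝ) ^ i + 1) := by
    have h2 : ((∏ i ∈ range k, (2 ^ i + 1) : ℕ) : ℝ) = ∏ i ∈ range k, ((2 : ℝ) ^ i + 1) := by
      push_cast
      rfl
    rw [← h2, ← c3]
    congr 1
    refine congrArg Finset.card (Finset.filter_congr fun Λ _ => ?_)
    unfold Gd
    constructor
    · exact fun h => ⟨fun u hu v hv => (even_ee u v).mp (h.1 u hu v hv), h.2.1,
        fun u hu => (even_tu u).mp (h.2.2 u hu)⟩
    · exact fun h => ⟨fun u hu v hv => (even_ee u v).mpr (h.1 u hu v hv), h.2.1,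
        fun u hu => (even_tu u).mpr (h.2.2 u hu)⟩
  rw [hcard] at h
  refine h.congr fun x => ?_
  rw [sum_XX hb k x]

open Classical in
/-- the density of the sets with trivial kernel -/
theorem density (h1 : SREC) (hcomb : SCOMB) (h5 : A5 gN) (hmom : SMOM)
    (ha : ∀ k, SABSa gN gs gt (Ix k) ((1 / 2 : ℝ) ^ k) ee tu)
    (hbb : ∀ k, SABSb gN (Ix k) ((1 / 2 : ℝ) ^ k))
    (hc : ∀ k, SABSc gN gs gt (Ix k) ((1 / 2 : ℝ) ^ k) ee tu) :
    Tendsto (fun n : ℕ => (#((FF gN (n + 1 : ℝ)).filter fun S => XX gs gt S = 1) : ℝ) /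
      #(FF gN (n + 1 : ℝ))) atTop (nhds al) := by
  have hb := basic_gs h1
  refine hmom (fun _ => Finset Pr) (fun n => FF gN (n + 1 : ℝ)) (fun _ S => XX gs gt S) ?_ ?_ ?_
  · intro n
    refine ⟨∅, (mem_FF hb).mpr ?_⟩
    unfold NN
    rw [Finset.prod_empty]
    push_cast
    have : (0 : ℝ) ≤ n := Nat.cast_nonneg n
    linarith
  · intro n S _
    exact XX_pow hb S
  · intro k
    have h := moments h1 hcomb h5 ha hbb hc k
    exact h.comp (tendsto_atTop_add_const_right _ 1 tendsto_natCast_atTop_atTop)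

end Pool.Agent.Y690.PP
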