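import Pool.Agent.Y690.PP.Stm2
import Pool.Agent.Y699.Av

/-!
# Descent for `D y² = x³ - x`, `D` even

The argument at the prime above two is the one of `Pool.Agent.Y699.Rk`.
-/

set_option autoImplicit false
set_option linter.unusedSectionVars false

open IsDedekindDomain WithZero

namespace Pool.Agent.Y690.PP.Fn

open Pool.Agent.Y690.PP
open Pool.Agent.Y699.Av (AV Set2 Nt g tau empty_of_step)

lemma la_dvd (z : G) : la ∣ z ↔ (z.re + z.im) % 2 = 0 := by
  constructor
  · rintro ⟨w, rfl⟩
    simp only [la, Zsqrtd.re_mul, Zsqrtd.im_mul]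
    omega
  · intro h
    refine ⟨⟨(z.re + z.im) / 2, (z.im - z.re) / 2⟩, ?_⟩
    ext
    · simp only [la, Zsqrtd.re_mul]
      omega
    · simp only [la, Zsqrtd.im_mul]
      omega

lemma la_ne : la ≠ 0 := by decide

lemma la_prime : Prime la := by
  refine ⟨la_ne, ?_, ?_⟩
  · intro h
    have := h.dvd (a := (1 : G))
    rw [la_dvd] at this
    revert this
    decide
  · intro a b h
    rw [la_dvd] at h ⊢
    rw [la_dvd]
    simp only [Zsqrtd.re_mul, Zsqrtd.im_mul] at h
    by_contra hc
    push Not at hc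
    obtain ⟨h1, h2⟩ := hc
    rcases Int.emod_two_eq_zero_or_one a.re with h3 | h3 <;>
    rcases Int.emod_two_eq_zero_or_one a.im with h4 | h4 <;>
    rcases Int.emod_two_eq_zero_or_one b.re with h5 | h5 <;>
    rcases Int.emod_two_eq_zero_or_one b.im with h6 | h6 <;>
    first
      | (exfalso; omega)
      | (simp [Int.add_emod, Int.mul_emod, h3, h4, h5, h6] at h)

lemma dvd_sub_of_odd {a b : G} (ha : ¬ la ∣ a) (hb : ¬ la ∣ b) : la ∣ a - b := by
  rw [la_dvd] at ha hb ⊢
  rw [Zsqrtd.re_sub, Zsqrtd.im_sub]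
  omega

variable {F : Type} [Field F] [Algebra G F] [IsFractionRing G F]

lemma A_inj : Function.Injective (algebraMap G F) := IsFractionRing.injective G F

lemma A_ne {a : G} (h : a ≠ 0) : algebraMap G F a ≠ 0 := by
  rwa [Ne, map_eq_zero_iff _ A_inj]

/-- the place above two -/
noncomputable def v0 : HeightOneSpectrum G where
  asIdeal := Ideal.span {la}
  isPrime := (Ideal.span_singleton_prime la_prime.ne_zero).2 la_prime
  ne_bot := by rw [Ne, Ideal.span_singleton_eq_bot]; exact la_prime.ne_zero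

variable (F) in
/-- the additive valuation above two -/
noncomputable def vv (x : F) : ℤ := - WithZero.log (v0.valuation F x)

lemma w_ne {x : F} (hx : x ≠ 0) : v0.valuation F x ≠ 0 := (Valuation.ne_zero_iff _).2 hx

lemma vv_av : AV (vv F) where
  mul := by
    intro x y hx hy
    unfold vv
    rw [map_mul, WithZero.log_mul (w_ne hx) (w_ne hy)]
    ring
  add := by
    intro x y hx hy hxy
    unfold vv
    have h1 := (v0.valuation F).map_add x y
    rcases le_max_iff.1 h1 with h2 | h2
    · have := (WithZero.log_le_log (w_ne hxy) (w_ne hx)).2 h2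
      exact (min_le_left _ _).trans (by omega)
    · have := (WithZero.log_le_log (w_ne hxy) (w_ne hy)).2 h2
      exact (min_le_right _ _).trans (by omega)

lemma vv_la : vv F (algebraMap G F la) = 1 := by
  unfold vv
  rw [HeightOneSpectrum.valuation_of_algebraMap, v0.intValuation_singleton la_prime.ne_zero rfl,
    WithZero.log_exp]
  norm_num

variable (F) in
lemma set2 : Set2 (vv F) (algebraMap G F la) (algebraMap G F ⟨0, 1⟩) 1 where
  av := vv_av
  ll := by
    rw [← map_pow]
    have e : la ^ 2 = 2 * ⟨0, 1⟩ := by decide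
    rw [e, map_mul, map_ofNat]
  jj := by
    rw [← map_pow]
    have e : (⟨0, 1⟩ : G) ^ 2 = (-1 : G) := by decide
    rw [e, map_neg, map_one]
  lj := by
    rw [← map_one (algebraMap G F), ← map_add]
    congr 1
  two := by
    have : algebraMap G F 2 ≠ 0 := A_ne (by decide)
    rwa [map_ofNat] at this
  vl := vv_la
  D0 := one_ne_zero
  vD := vv_av.one
  res := by
    intro t ht0 ht ht1
    have hw : v0.valuation F t = 1 := by
      unfold vv at ht
      have h1 : WithZero.log (v0.valuation F t) = 0 := by omega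
      rw [← WithZero.exp_log (w_ne ht0), h1, WithZero.exp_zero]
    obtain ⟨a, b, hab⟩ := v0.exists_primeCompl_mul_eq_of_integer t hw.le
    have hb : ¬ la ∣ (b : G) := fun h => b.2 (Ideal.mem_span_singleton.2 h)
    have hb1 : v0.valuation F (algebraMap G F (b : G)) = 1 := by
      rw [HeightOneSpectrum.valuation_of_algebraMap, HeightOneSpectrum.intValuation_eq_one_iff]
      exact b.2
    have ha : ¬ la ∣ a := by
      intro h
      have h1 : v0.valuation F (algebraMap G F a) < 1 := by
        rw [HeightOneSpectrum.valuation_lt_one_iff_mem]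
        exact Ideal.mem_span_singleton.2 h
      rw [← hab, map_mul, hw, hb1, one_mul] at h1
      exact lt_irrefl _ h1
    have hab' : la ∣ a - (b : G) := dvd_sub_of_odd ha hb
    have h1 : v0.valuation F (t - 1) < 1 := by
      have h2 : v0.valuation F (algebraMap G F (a - (b : G))) < 1 := by
        rw [HeightOneSpectrum.valuation_lt_one_iff_mem]
        exact Ideal.mem_span_singleton.2 hab'
      rw [map_sub, ← hab] at h2
      have e : t * algebraMap G F (b : G) - algebraMap G F (b : G) =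
          (t - 1) * algebraMap G F (b : G) := by ring
      rwa [e, map_mul, hb1, mul_one] at h2
    unfold vv
    have h3 : t - 1 ≠ 0 := sub_ne_zero.2 ht1
    have h4 := (WithZero.log_lt_log (w_ne h3) one_ne_zero).2 h1
    rw [WithZero.log_one] at h4
    omega

/-- the descent over a field of fractions -/
theorem no_pts {D : F} (hD0 : D ≠ 0) (hsq : ∀ x y : F, y ≠ 0 → D * y ^ 2 = x ^ 3 - x →
    ∃ w : F, D * x = w ^ 2 ∨ D * ((x + 1) / (x - 1)) = w ^ 2) {x y : F}
    (hxy : D * y ^ 2 = x ^ 3 - x) : y = 0 := by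
  have hS := set2 F
  set l : F := algebraMap G F la with hl
  set j : F := algebraMap G F ⟨0, 1⟩ with hj
  have hl0 := hS.l0
  have hj0 := hS.j0
  have h20 := hS.two
  have hll := hS.ll
  have hjj := hS.jj
  set X : Set F := {x | ∃ y : F, y ≠ 0 ∧ D * y ^ 2 = x ^ 3 - x} with hX
  have hnt : ∀ x ∈ X, Nt 1 x := by
    rintro x ⟨y, hy, hxy⟩
    have h1 : ∀ z : F, z = 0 → x ^ 3 - x = z * z → False := by
      intro z hz h
      apply hy
      have : D * y ^ 2 = 0 := by rw [hxy, h, hz, mul_zero]
      rcases mul_eq_zero.mp this with h2 | h2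
      · exact absurd h2 hD0
      · exact pow_eq_zero_iff (by norm_num) |>.1 h2
    refine ⟨fun h => h1 0 rfl ?_, fun h => h1 0 rfl ?_, fun h => h1 0 rfl ?_⟩
    · rw [h]; ring
    · have : x ^ 3 - x = (x - 1) * (x * (x + 1)) := by ring
      rw [this, h]; ring
    · have : x ^ 3 - x = (x + 1) * (x * (x - 1)) := by ring
      rw [this, h]; ring
  -- halving when `D x` is a square
  have hhalf : ∀ x ∈ X, ∀ w : F, D * x = w ^ 2 → ∃ x' ∈ X, x = g l 1 x' := by
    rintro x hx w hxw
    obtain ⟨n0, n1, n2⟩ := hnt x hx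
    obtain ⟨y, hy, hxy⟩ := hx
    have hw0 : w ≠ 0 := by
      rintro rfl
      apply mul_ne_zero hD0 n0
      rw [hxw]; ring
    set b : F := D * y / w with hb
    have hb2 : b ^ 2 = x ^ 2 - 1 := by
      rw [hb, div_pow, ← hxw]
      have h3 : (D * y) ^ 2 = D * x * (x ^ 2 - 1) := by
        have e : (D * y) ^ 2 = D * (D * y ^ 2) := by ring
        rw [e, hxy]
        ring
      rw [h3, mul_div_cancel_left₀ _ (mul_ne_zero hD0 n0)]
    have hprod : (x + b) * (x - b) = 1 := by
      linear_combination -hb2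
    have hs0 : x + b ≠ 0 := by
      intro h
      rw [h, zero_mul] at hprod
      exact zero_ne_one hprod
    set x' : F := j * (x + b) with hx'
    have hx'0 : x' ≠ 0 := mul_ne_zero hj0 hs0
    have key : x' ^ 2 - 1 = l ^ 2 * x' * x := by
      rw [hx', hll]
      linear_combination (x ^ 2 + 2 * x * b + b ^ 2 - 2 * x * (x + b)) * hjj - hb2
    refine ⟨x', ⟨l * w * x' / D, ?_, ?_⟩, ?_⟩
    · exact div_ne_zero (mul_ne_zero (mul_ne_zero hl0 hw0) hx'0) hD0
    · have e : x' ^ 3 - x' = x' * (x' ^ 2 - 1) := by ring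
      rw [e, key, div_pow, mul_pow, mul_pow, ← hxw]
      field_simp
    · unfold g
      rw [one_pow, key]
      field_simp
  have hτX : ∀ x ∈ X, tau 1 x ∈ X := by
    intro x hx
    obtain ⟨n0, n1, n2⟩ := hnt x hx
    obtain ⟨y, hy, hxy⟩ := hx
    refine ⟨2 * y / (x - 1) ^ 2, div_ne_zero (mul_ne_zero h20 hy) (pow_ne_zero 2 n1), ?_⟩
    unfold tau
    have e : D * (2 * y / (x - 1) ^ 2) ^ 2 = 4 * (D * y ^ 2) / (x - 1) ^ 4 := by
      field_simp
      ring
    rw [e, hxy]
    field_simp
    ring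
  have hττ : ∀ x ∈ X, tau 1 (tau 1 x) = x := by
    intro x hx
    obtain ⟨n0, n1, n2⟩ := hnt x hx
    have e1 : tau 1 (tau 1 x) = 1 * (tau 1 x + 1) / (tau 1 x - 1) := rfl
    have e2 : tau 1 x + 1 = 2 * x / (x - 1) := by
      unfold tau; field_simp; ring
    have e3 : tau 1 x - 1 = 2 / (x - 1) := by
      unfold tau; field_simp; ring
    rw [e1, e2, e3]
    field_simp
  have hstep : ∀ x ∈ X, ∃ x' ∈ X, x = g l 1 x' ∨ (g l 1 x' ∈ X ∧ x = tau 1 (g l 1 x')) := by
    intro x hx
    obtain ⟨y, hy, hxy⟩ := id hx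
    obtain ⟨w, hw | hw⟩ := hsq x y hy hxy
    · obtain ⟨x', hx', h2⟩ := hhalf x hx w hw
      exact ⟨x', hx', Or.inl h2⟩
    · have e : (x + 1) / (x - 1) = tau 1 x := by
        unfold tau
        rw [one_mul]
      rw [e] at hw
      obtain ⟨x', hx', h2⟩ := hhalf _ (hτX x hx) w hw
      refine ⟨x', hx', Or.inr ⟨by rw [← h2]; exact hτX x hx, ?_⟩⟩
      rw [← h2, hττ x hx]
  have hempty := empty_of_step hS X hnt hstep
  by_contra hy
  have : x ∈ X := ⟨y, hy, hxy⟩
  rw [hempty] at this
  exact this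

/-- the descent -/
theorem t_DSC (h1 : SDSC1) (hk : SKER) : SDSC := by
  classical
  intro A hA x y hxy
  have hP0 : la * PA A ≠ 0 := by
    refine mul_ne_zero la_ne ?_
    unfold PA
    exact Finset.prod_ne_zero_iff.mpr fun p _ => p.2.1.ne_zero
  refine no_pts (A_ne hP0) (fun x y hy hxy => ?_) hxy
  obtain ⟨V, w, hVA, hw, hc1, hc2⟩ := h1 A x y hy hxy
  have hV : V = ∅ := by
    refine hk A hA V hVA ?_ ?_
    · convert hc1
    · convert hc2
  subst hV
  have hPe : PA ∅ = 1 := Finset.prod_empty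
  rw [hPe, map_one, one_mul] at hw
  exact ⟨w, hw⟩

end Pool.Agent.Y690.PP.Fn
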