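import Pool.Agent.Y690.PP.Dens
import Pool.Agent.Y705.PP.Conj
import Pool.Agent.Y690.W.Fin1
import Pool.Agent.W287.HK.Basic
import Pool.Agent.W571.HK.Cls
import Pool.Agent.W53.HK.Fp
import Pool.Agent.W366.HK.Fpr
import Pool.Agent.W585.HK.LAT
import Pool.Agent.W692.HK.Ker
import Pool.Agent.W584.HK.CNT
import Pool.Agent.W856.HK.Dec
import Pool.Agent.W636.HK.Gauss
import Pool.Agent.W348.HK.Pois

/-!
# Positive proportion: the two types of even twists
-/

set_option autoImplicit false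

open Complex IsDedekindDomain

namespace Pool.Agent.Y690.PP

open Pool.Agent.Y690.PP.Cj

variable {R : Subring ℂ} (hR : ∀ z : ℂ, z ∈ R ↔ ∃ x y : ℤ, z = x + y * Complex.I)

lemma sign_eq (α : R) : sign (Pool.Agent.Y690.NV.ff hR) 0 α = Pool.Agent.Y690.AW.sg hR α := by
  classical
  have h1 : (∃ x y : ℤ, (if (0 : Fin 2) = 0 then Even x else Even y) ∧
      (α : ℂ) = 1 + Pool.Agent.Y690.NV.ff hR * (x + y * I)) ↔
      ∃ x y : ℤ, Even x ∧ α = 1 + Pool.Agent.Y690.NV.ff hR * Pool.Agent.Y690.NV.mkz hR x y := by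
    simp only [if_true]
    constructor
    · rintro ⟨x, y, hx, h⟩
      exact ⟨x, y, hx, Subtype.ext (by push_cast; rw [h, Pool.Agent.Y690.NV.mkz_coe])⟩
    · rintro ⟨x, y, hx, h⟩
      exact ⟨x, y, hx, by rw [h]; push_cast; rw [Pool.Agent.Y690.NV.mkz_coe]⟩
  unfold sign Pool.Agent.Y690.AW.sg
  by_cases h2 : ∃ x y : ℤ, (if (0 : Fin 2) = 0 then Even x else Even y) ∧
      (α : ℂ) = 1 + Pool.Agent.Y690.NV.ff hR * (x + y * I)
  · rw [if_pos h2, if_pos (h1.mp h2)]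
  · rw [if_neg h2, if_neg (fun h3 => h2 (h1.mpr h3))]

/-- nonvanishing for the first type -/
theorem nonv0 {S : Finset R} (hS : Pool.Agent.Y690.AW.Adm1 hR S) :
    Nonvanishing (Pool.Agent.Y690.NV.ff hR) 0 S := by
  have hbasic := Pool.Agent.W287.HK.h_basic
  have hcls := Pool.Agent.W571.HK.h_cls hbasic
  have hfp := Pool.Agent.W53.HK.h_fp hbasic hcls
  have hfpr := Pool.Agent.W366.HK.h_fpr hbasic hcls
  have hlat := Pool.Agent.W585.HK.h_lat hbasic
  have hker := Pool.Agent.W692.HK.h_ker hbasic hcls hfpr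
  have hcnt := Pool.Agent.W584.HK.h_cnt hbasic hcls hfpr hlat hker
  have hdec := Pool.Agent.W856.HK.h_dec hbasic
  have hgauss := Pool.Agent.W636.HK.h_gauss hbasic hfp
  have hpois := Pool.Agent.W348.HK.h_pois hbasic
  have htheta := Pool.Agent.TH936.HK.h_theta hbasic hfp hdec hgauss hpois hcnt
  have hafe := Pool.Agent.TH936.HK.h_afe hbasic hfp hcnt hgauss htheta
  refine ⟨Pool.Agent.Y690.AW.tw1 hR 1 S, ⟨?_, fun α hα => ?_, fun J hJ => ?_⟩,
    fun k a b hk hab => ?_⟩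
  · exact (Pool.Agent.Y690.AW.tw1_main hR hbasic hfp hcnt hdec hafe hS 0).1.mul
  · have h := Pool.Agent.Y690.AW.tw1_gen hR 1 S hα
    rw [pow_one] at h
    rw [sign_eq hR]
    exact h
  · exact Pool.Agent.Y690.AW.tw1_zero hR S 1 hJ
  · obtain ⟨L, h1, h2, h3⟩ := Pool.Agent.Y690.AW.family1 hR hbasic hfp hcnt hdec hafe 1
      (S := fun _ => S) (fun _ => hS) k hk (fun _ => a) (fun _ => b) (fun _ => hab)
    refine ⟨L, h1, fun s hs => ?_, h3⟩
    have h4 := h2 s hs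
    simp only [Fin.prod_univ_one] at h4
    exact h4

/-- the density theorem for the first type -/
theorem pp0 (ε : ℝ) (hε : 0 < ε) : ∃ X₀ : ℝ, ∀ X ≥ X₀, (al - ε) * ((Fam R X).ncard : ℝ) ≤
    ({S ∈ Fam R X | Nonvanishing (Pool.Agent.Y690.NV.ff hR) 0 S}.ncard : ℝ) :=
  main hR Pool.Agent.W287.HK.h_basic _ (fun _ hS => nonv0 hR hS) ε hε

open Classical in
/-- the conjugate set -/
noncomputable def cjS (c : R ≃+* R) (S : Finset R) : Finset R := S.image c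

section cj

variable (c : R ≃+* R)

lemma cjS_mem (hc : ∀ z : R, ((c z : R) : ℂ) = (starRingEnd ℂ) (z : ℂ)) (S : Finset R) (p : R) :
    p ∈ cjS c S ↔ ∃ q ∈ S, (p : ℂ) = (starRingEnd ℂ) (q : ℂ) := by
  classical
  unfold cjS
  rw [Finset.mem_image]
  constructor
  · rintro ⟨q, hq, rfl⟩
    exact ⟨q, hq, hc q⟩
  · rintro ⟨q, hq, h⟩
    exact ⟨q, hq, Subtype.ext (by rw [hc, h])⟩

lemma cjS_inj : Function.Injective (cjS c) := by
  classical
  intro S T h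
  exact Finset.image_injective c.injective h

include hR in
lemma cjS_fam (hc : ∀ z : R, ((c z : R) : ℂ) = (starRingEnd ℂ) (z : ℂ)) {S : Finset R} {X : ℝ}
    (hS : S ∈ Fam R X) : cjS c S ∈ Fam R X := by
  classical
  obtain ⟨h1, h2⟩ := hS
  refine ⟨fun p hp => ?_, ?_⟩
  · unfold cjS at hp
    obtain ⟨q, hq, rfl⟩ := Finset.mem_image.mp hp
    obtain ⟨h3, h4⟩ := h1 q hq
    refine ⟨(MulEquiv.prime_iff (c : R ≃* R)).mpr h3, ?_⟩
    refine (Pool.Agent.Y690.AW.pri_iff hR _).mp ?_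
    have h5 := Pool.Agent.Y705.PP.cf_span c hR hc (Pool.Agent.Y690.NV.ff hR)
      (Pool.Agent.Y690.NV.ff_coe hR) _ ((Pool.Agent.Y690.AW.pri_iff hR q).mpr h4)
    rw [map_sub, map_one] at h5
    exact h5
  · have h6 : (∏ p ∈ cjS c S, p : R) = c (∏ p ∈ S, p) := by
      unfold cjS
      rw [Finset.prod_image fun x _ y _ h => c.injective h, map_prod]
    rw [h6, hc, Complex.norm_conj]
    exact h2

lemma cjS_cj (hc : ∀ z : R, ((c z : R) : ℂ) = (starRingEnd ℂ) (z : ℂ)) (S : Finset R) :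
    cjS c (cjS c S) = S := by
  classical
  unfold cjS
  rw [Finset.image_image]
  conv_rhs => rw [← Finset.image_id (s := S)]
  apply Finset.image_congr
  intro x _
  exact Pool.Agent.Y705.PP.cc c hc x

end cj

/-- the density theorem for the second type -/
theorem pp1 (ε : ℝ) (hε : 0 < ε) : ∃ X₀ : ℝ, ∀ X ≥ X₀, (al - ε) * ((Fam R X).ncard : ℝ) ≤
    ({S ∈ Fam R X | Nonvanishing (Pool.Agent.Y690.NV.ff hR) 1 S}.ncard : ℝ) := by
  obtain ⟨X₀, h0⟩ := pp0 hR ε hε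
  obtain ⟨c, hc⟩ := Pool.Agent.Y705.PP.exists_cj hR
  refine ⟨X₀, fun X hX => (h0 X hX).trans ?_⟩
  have h1 : {S ∈ Fam R X | Nonvanishing (Pool.Agent.Y690.NV.ff hR) 0 S}.ncard ≤
      {S ∈ Fam R X | Nonvanishing (Pool.Agent.Y690.NV.ff hR) 1 S}.ncard := by
    refine Set.ncard_le_ncard_of_injOn (cjS c) ?_ ((cjS_inj c).injOn)
      ((Fam_finite hR X).subset fun S hS => hS.1)
    rintro S ⟨h2, h3⟩
    refine ⟨cjS_fam hR c hc h2, ?_⟩
    exact Pool.Agent.Y705.PP.t_CONJ R hR _ (Pool.Agent.Y690.NV.ff_coe hR) S (cjS c S)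
      (cjS_mem c hc S) (fun p hp => (h2.1 p hp).1) h3
  exact_mod_cast h1

/-- both types -/
theorem pp (e : Fin 2) (ε : ℝ) (hε : 0 < ε) : ∃ X₀ : ℝ, ∀ X ≥ X₀,
    (al - ε) * ((Fam R X).ncard : ℝ) ≤
    ({S ∈ Fam R X | Nonvanishing (Pool.Agent.Y690.NV.ff hR) e S}.ncard : ℝ) := by
  fin_cases e
  · exact pp0 hR ε hε
  · exact pp1 hR ε hε

include hR in
/-- the number of sets is at least a constant times `X` -/
theorem Fam_low : ∃ c : ℝ, 0 < c ∧ ∀ X : ℝ, 1 ≤ X → c * X ≤ ((Fam R X).ncard : ℝ) := by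
  obtain ⟨c, hc, h⟩ := Pool.Agent.Y954.PP.t_A5 Pool.Agent.Y427.PP.t_FAC
  exact ⟨c, hc, fun X hX => by rw [Fam_card hR]; exact h X hX⟩

end Pool.Agent.Y690.PP
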