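import Pool.Agent.Y690.PP.Ker

/-!
# Labelled sets and families of sets
-/

set_option autoImplicit false
set_option linter.unusedSectionVars false

open Finset

namespace Pool.Agent.Y690.PP

variable {P : Type} {N : P → ℕ} {s : P → P → ℝ} {t : P → ℝ}
variable {I : Type} [Fintype I] [DecidableEq I]

section basic

variable (hb : Basic N s t)

include hb

lemma NN_pos (A : Finset P) : 0 < NN N A :=
  Finset.prod_pos fun p _ => lt_of_lt_of_le (by norm_num) (hb.two_le p)

lemma le_NN {A : Finset P} {p : P} (h : p ∈ A) : N p ≤ NN N A :=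
  Nat.le_of_dvd (NN_pos hb A) (Finset.dvd_prod_of_mem _ h)

lemma NN_mono {A B : Finset P} (h : A ⊆ B) : NN N A ≤ NN N B :=
  Nat.le_of_dvd (NN_pos hb B) (Finset.prod_dvd_prod_of_subset _ _ _ h)

lemma FF_finite (x : ℝ) : {A : Finset P | (NN N A : ℝ) ≤ x}.Finite := by
  classical
  have h1 := hb.fin x
  refine (Set.Finite.subset (h1.toFinset.powerset.finite_toSet) ?_)
  intro A hA
  rw [Finset.mem_coe, Finset.mem_powerset]
  intro p hp
  rw [Set.Finite.mem_toFinset]
  have : (N p : ℝ) ≤ NN N A := by exact_mod_cast le_NN hb hp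
  exact this.trans hA

lemma mem_FF {x : ℝ} {A : Finset P} : A ∈ FF N x ↔ (NN N A : ℝ) ≤ x := by
  unfold FF
  rw [dif_pos (FF_finite hb x), Set.Finite.mem_toFinset]
  rfl

lemma mem_PB {x : ℝ} {p : P} : p ∈ PB N x ↔ (N p : ℝ) ≤ x := by
  unfold PB
  rw [dif_pos (hb.fin x), Set.Finite.mem_toFinset]
  rfl

open Classical in
lemma mem_TT {x : ℝ} {A : I → Finset P} : A ∈ TT I N x ↔
    (∀ u v, u ≠ v → Disjoint (A u) (A v)) ∧ ((∏ u, NN N (A u) : ℕ) : ℝ) ≤ x := by
  unfold TT
  rw [mem_filter, Fintype.mem_piFinset]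
  constructor
  · exact fun h => h.2
  · refine fun h => ⟨fun u => (mem_FF hb).mpr (le_trans ?_ h.2), h⟩
    have h1 : NN N (A u) ≤ ∏ u, NN N (A u) :=
      Nat.le_of_dvd (Finset.prod_pos fun _ _ => NN_pos hb _) (Finset.dvd_prod_of_mem _ (mem_univ u))
    exact_mod_cast h1

end basic

open Classical in
/-- the family of a labelled set -/
noncomputable def fam (S : Finset P) (l : S → I) (u : I) : Finset P :=
  (univ.filter fun p : S => l p = u).map (Function.Embedding.subtype _)

lemma mem_fam {S : Finset P} {l : S → I} {u : I} {p : P} :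
    p ∈ fam S l u ↔ ∃ h : p ∈ S, l ⟨p, h⟩ = u := by
  classical
  unfold fam
  simp only [mem_map, mem_filter, mem_univ, true_and, Function.Embedding.coe_subtype]
  constructor
  · rintro ⟨⟨q, hq⟩, h1, rfl⟩
    exact ⟨hq, h1⟩
  · rintro ⟨h, h1⟩
    exact ⟨⟨p, h⟩, h1, rfl⟩

lemma prod_fam {M : Type} [CommMonoid M] (S : Finset P) (l : S → I) (F : I → P → M) :
    ∏ u, ∏ p ∈ fam S l u, F u p = ∏ p : S, F (l p) p := by
  classical
  rw [← Finset.prod_fiberwise univ l (fun p => F (l p) p)]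
  refine Finset.prod_congr rfl fun u _ => ?_
  unfold fam
  rw [Finset.prod_map]
  refine Finset.prod_congr rfl fun p hp => ?_
  rw [(mem_filter.mp hp).2]
  rfl

lemma wt_fam (S : Finset P) (l : S → I) (w : ℝ) (e : I → I → ℕ) (τ : I → ℕ) :
    wt s t w e τ (fam S l) = ∏ p : S, (w * t p ^ τ (l p) * ∏ q : S, s q p ^ e (l q) (l p)) := by
  unfold wt
  rw [Finset.prod_mul_distrib, Finset.prod_mul_distrib]
  congr 1
  · congr 1
    · rw [← Finset.prod_pow_eq_pow_sum, ← prod_fam S l (fun _ _ => w)]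
      refine Finset.prod_congr rfl fun u _ => ?_
      rw [Finset.prod_const]
    · rw [← prod_fam S l (fun u p => t p ^ τ u)]
      refine Finset.prod_congr rfl fun u _ => ?_
      rw [Finset.prod_pow]
  · have h1 : ∀ u v, sy s (fam S l u) (fam S l v) ^ e u v =
        ∏ q ∈ fam S l u, ∏ p ∈ fam S l v, s q p ^ e u v := by
      intro u v
      unfold sy
      rw [← Finset.prod_pow]
      refine Finset.prod_congr rfl fun q _ => ?_
      rw [← Finset.prod_pow]
    simp only [h1]
    have h2 : ∀ u, ∏ v, ∏ q ∈ fam S l u, ∏ p ∈ fam S l v, s q p ^ e u v =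
        ∏ q ∈ fam S l u, ∏ p : S, s q p ^ e u (l p) := by
      intro u
      rw [Finset.prod_comm]
      refine Finset.prod_congr rfl fun q _ => ?_
      exact prod_fam S l (fun v p => s q p ^ e u v)
    simp only [h2]
    rw [prod_fam S l (fun u q => ∏ p : S, s q p ^ e u (l p)), Finset.prod_comm]

open Classical in
/-- the sum over labelled sets -/
theorem sum_lab (hb : Basic N s t) (w : ℝ) (e : I → I → ℕ) (τ : I → ℕ) (x : ℝ) :
    ∑ S ∈ FF N x, ∑ l : S → I,
      ∏ p : S, (w * t p ^ τ (l p) * ∏ q : S, s q p ^ e (l q) (l p)) =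
    ∑ A ∈ TT I N x, wt s t w e τ A := by
  have hNN : ∀ A : I → Finset P, (∀ u v, u ≠ v → Disjoint (A u) (A v)) →
      NN N (univ.biUnion A) = ∏ u, NN N (A u) := by
    intro A hA
    unfold NN
    rw [Finset.prod_biUnion fun u _ v _ huv => hA u v huv]
  have hmaps : ∀ A ∈ TT I N x, univ.biUnion A ∈ FF N x := by
    intro A hA
    rw [mem_TT hb] at hA
    rw [mem_FF hb, hNN A hA.1]
    exact hA.2
  rw [← Finset.sum_fiberwise_of_maps_to hmaps]
  refine Finset.sum_congr rfl fun S hS => ?_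
  have hbu : ∀ l : S → I, univ.biUnion (fam S l) = S := by
    intro l
    ext p
    rw [mem_biUnion]
    constructor
    · rintro ⟨u, -, hu⟩
      exact (mem_fam.mp hu).1
    · exact fun h => ⟨l ⟨p, h⟩, mem_univ _, mem_fam.mpr ⟨h, rfl⟩⟩
  have hdis : ∀ (l : S → I) u v, u ≠ v → Disjoint (fam S l u) (fam S l v) := by
    intro l u v huv
    rw [Finset.disjoint_left]
    intro p hp hp'
    obtain ⟨h1, h2⟩ := mem_fam.mp hp
    obtain ⟨_, h3⟩ := mem_fam.mp hp'
    exact huv (h2.symm.trans h3)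
  refine Finset.sum_bij (fun l _ => fam S l) ?_ ?_ ?_ ?_
  · intro l _
    rw [mem_filter, mem_TT hb]
    refine ⟨⟨hdis l, ?_⟩, hbu l⟩
    rw [← hNN _ (hdis l), hbu l]
    exact (mem_FF hb).mp hS
  · intro l _ l' _ h
    funext p
    have h1 : (p : P) ∈ fam S l (l p) := mem_fam.mpr ⟨p.2, rfl⟩
    have h2 : fam S l (l p) = fam S l' (l p) := congrFun h (l p)
    rw [h2] at h1
    obtain ⟨_, h3⟩ := mem_fam.mp h1
    exact h3.symm
  · intro A hA
    rw [mem_filter, mem_TT hb] at hA
    obtain ⟨⟨hd, _⟩, hU⟩ := hA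
    have h1 : ∀ p : S, ∃ u, (p : P) ∈ A u := by
      intro p
      have h2 : (p : P) ∈ univ.biUnion A := by rw [hU]; exact p.2
      obtain ⟨u, _, hu⟩ := mem_biUnion.mp h2
      exact ⟨u, hu⟩
    choose l hl using h1
    refine ⟨l, mem_univ _, ?_⟩
    funext u
    ext p
    rw [mem_fam]
    constructor
    · rintro ⟨h, h2⟩
      have := hl ⟨p, h⟩
      rw [h2] at this
      exact this
    · intro h
      have h2 : p ∈ S := by
        rw [← hU]
        exact mem_biUnion.mpr ⟨u, mem_univ _, h⟩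
      refine ⟨h2, ?_⟩
      by_contra h3
      exact (Finset.disjoint_left.mp (hd _ _ h3) (hl ⟨p, h2⟩)) h
  · intro l _
    rw [wt_fam]

open Classical in
/-- the sum of the powers of the sizes of the kernels -/
theorem sum_XX (hb : Basic N s t) (k : ℕ) (x : ℝ) :
    ∑ S ∈ FF N x, (XX s t S : ℝ) ^ k =
      ∑ A ∈ TT (Ix k) N x, wt s t ((1 / 2 : ℝ) ^ k) ee tu A := by
  rw [← sum_lab hb]
  refine Finset.sum_congr rfl fun S _ => ?_
  exact XX_pow_exp hb S k

end Pool.Agent.Y690.PP
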