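import Pool.Agent.Y690.PP.Fin
import Pool.Agent.Y690.PP.Dsc
import Pool.Agent.Y983.PP.Supp

/-!
# The last step
-/

set_option autoImplicit false

open Finset Filter

namespace Pool.Agent.Y690.PP.Fn

open Pool.Agent.Y690.PP

open Classical in
/-- the final theorem from the jobs -/
theorem last_of (hcnt : SCNT) (hinv : SINV) (heul : SEUL) (hker : SKER) (hdsc1 : SDSC1) :
    (419 / 1000 : ℝ) < al ∧
    (∀ X : ℝ, (Tw X).Finite) ∧
    (∃ c : ℝ, 0 < c ∧ ∀ X : ℝ, 2 ≤ X → c * X ≤ ((Tw X).ncard : ℝ)) ∧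
    ∀ ε : ℝ, 0 < ε → ∃ X₀ : ℝ, ∀ X : ℝ, X₀ ≤ X →
      (al - ε) * ((Tw X).ncard : ℝ) ≤ ({D ∈ Tw X | GoodP D ∧ GoodL D}.ncard : ℝ) := by
  have hgood : ∀ A : Finset Pr, TK A → GoodP (la * PA A) ∧ GoodL (la * PA A) := by
    intro A hA
    refine ⟨t_DSC hdsc1 hker A hA, ?_⟩
    -- the subring
    let R : Subring ℂ := GaussianInt.toComplex.range
    have hR : ∀ z : ℂ, z ∈ R ↔ ∃ x y : ℤ, z = x + y * Complex.I := by
      intro z
      constructor
      · rintro ⟨w, rfl⟩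
        exact ⟨w.re, w.im, GaussianInt.toComplex_def w⟩
      · rintro ⟨x, y, rfl⟩
        exact ⟨⟨x, y⟩, GaussianInt.toComplex_def _⟩
    have hadm := adm_of_XX hR Pool.Agent.Y901.PP.Rec.t_REC Pool.Agent.W287.HK.h_basic hA
    refine heul R hR (Pool.Agent.Y690.NV.ff hR) (Pool.Agent.Y690.NV.ff_coe hR) A (A.map (em hR)) ?_
      (nonv0 hR hadm)
    intro p
    rw [Finset.mem_map]
    constructor
    · rintro ⟨q, hq, rfl⟩
      refine ⟨q, hq, ?_⟩
      rw [em_coe, phi_coe]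
      exact (GaussianInt.toComplex_def q.1).symm
    · rintro ⟨q, hq, h⟩
      refine ⟨q, hq, Subtype.ext ?_⟩
      rw [em_coe, phi_coe, h]
      exact (GaussianInt.toComplex_def q.1).symm
  refine ⟨Pool.Agent.Y944.PP.t_NUM, fun X => (hcnt X).1, ?_, ?_⟩
  · obtain ⟨c, hc, h⟩ := Pool.Agent.Y954.PP.t_A5 Pool.Agent.Y427.PP.t_FAC
    refine ⟨2 * c, by positivity, fun X hX => ?_⟩
    rw [(hcnt X).2.1]
    have h1 := h (X / 2) (by linarith)
    push_cast
    linarith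
  · intro ε hε
    have hev := density_all.eventually (lt_mem_nhds (show al - ε < al by linarith))
    obtain ⟨n₀, hn₀⟩ := eventually_atTop.mp hev
    refine ⟨2 * (n₀ + 2), fun X hX => ?_⟩
    set x : ℝ := X / 2 with hx
    have hx0 : (n₀ : ℝ) + 2 ≤ x := by rw [hx]; linarith
    have hx1 : (1 : ℝ) ≤ x := by
      have : (0 : ℝ) ≤ n₀ := Nat.cast_nonneg _
      linarith
    have hfl : n₀ + 1 ≤ ⌊x⌋₊ := Nat.le_floor (by push_cast; linarith)
    have h1 := hn₀ (⌊x⌋₊ - 1) (by omega)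
    have hR0 : ∀ z : ℂ, z ∈ (GaussianInt.toComplex.range : Subring ℂ) ↔
        ∃ x y : ℤ, z = x + y * Complex.I := by
      intro z
      constructor
      · rintro ⟨w, rfl⟩
        exact ⟨w.re, w.im, GaussianInt.toComplex_def w⟩
      · rintro ⟨x, y, rfl⟩
        exact ⟨⟨x, y⟩, GaussianInt.toComplex_def _⟩
    rw [← FF_floor hR0 hx1] at h1
    have hpos : (0 : ℝ) < #(FF gN x) := by
      have hb := basic_gs Pool.Agent.Y901.PP.Rec.t_REC
      have : (∅ : Finset Pr) ∈ FF gN x := by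
        rw [mem_FF hb]
        unfold NN
        rw [Finset.prod_empty]
        push_cast
        exact hx1
      exact_mod_cast Finset.card_pos.mpr ⟨_, this⟩
    rw [lt_div_iff₀ hpos] at h1
    obtain ⟨c1, c2, c3⟩ := hcnt X
    have h2 := c3 (fun D => GoodP D ∧ GoodL D) TK
      (fun D hD => ⟨hinv.2.2.1 D hD.1, hinv.1 D hD.2⟩)
      (fun D hD => ⟨hinv.2.2.2 D hD.1, hinv.2.1 D hD.2⟩) hgood
    rw [c2]
    have h3 : (4 * #((FF gN x).filter fun A => TK A) : ℝ) ≤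
        ({D ∈ Tw X | GoodP D ∧ GoodL D}.ncard : ℝ) := by exact_mod_cast h2
    refine le_trans ?_ h3
    push_cast
    have h4 : (al - ε) * #(FF gN x) ≤ (#((FF gN x).filter fun A => TK A) : ℝ) := by
      refine h1.le.trans (le_of_eq ?_)
      unfold TK
      congr!
    linarith

end Pool.Agent.Y690.PP.Fn
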